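import Mathlib

/-!
# Coefficient growth of Bloch functions with positive real part

For `f(z) = 1 + sum a_n z^n` in the class C (holomorphic in the unit disc, Bloch, positive real
part, `f(0) = 1`) put `S_N(f) = sum_{1 <= n <= N} |a_n|^2`.  We determine the optimal rate:
`S_N(f) = O(sqrt (log N))` for every `f` in C, and some `f` in C has
`S_N(f) >= c sqrt (log N)` for all large `N`.

Upper bound: for `A > 0` put `h = exp (-f/A)`; then `|h| <= 1`, Parseval gives
`sum_{n>=1} |h_n|^2 <= 2/A`, and `|f'| <= e A |h'|` where `Re f <= A`, while the set `Re f > A` has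
measure at most `1/A` on each circle; there the Bloch bound is used.  Take `A = sqrt (log N)`.

Lower bound: a 4-adic martingale measure whose densities move by `(0, 1, -1, 0)` on the four
children of an interval, stopped at `0`.  The second moments satisfy `E_{n+1} >= E_n + 1/(2 E_n)`,
and the Herglotz transform of the limit measure is a Bloch function whose real part follows the
density up to a bounded error.
-/

namespace Pool.Agent.Results.MP_034cab_an.SqrtLogRate

/-- The class C: holomorphic functions `f` on the unit disc with `f(0) = 1`, positive real part and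
`sup (1 - |z|^2) |f'(z)| < infinity`. -/
def InC (f : ℂ → ℂ) : Prop :=
  DifferentiableOn ℂ f (Metric.ball 0 1) ∧ f 0 = 1 ∧
  (∀ z ∈ Metric.ball (0 : ℂ) 1, 0 < (f z).re) ∧
  ∃ K : ℝ, ∀ z ∈ Metric.ball (0 : ℂ) 1, (1 - ‖z‖ ^ 2) * ‖deriv f z‖ ≤ K

/-- The Taylor coefficient `a_n` of `f` at `0`. -/
noncomputable def coeff (f : ℂ → ℂ) (n : ℕ) : ℂ := iteratedDeriv n f 0 / (n.factorial : ℂ)

/-- `S_N(f)`, the sum of `|a_n|^2` over `1 ≤ n ≤ N`. -/
noncomputable def S (f : ℂ → ℂ) (N : ℕ) : ℝ := ∑ n ∈ Finset.Icc 1 N, ‖coeff f n‖ ^ 2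

section part1

open Complex MeasureTheory intervalIntegral
open scoped Real ComplexConjugate

namespace H16B

/-- `e x = exp (2 π i x)` -/
noncomputable def e (x : ℝ) : ℂ := Complex.exp (2 * π * I * x)

theorem e_zero : e 0 = 1 := by simp [e]

theorem e_add (x y : ℝ) : e (x + y) = e x * e y := by
  rw [e, e, e, ← Complex.exp_add]; congr 1; push_cast; ring

theorem e_one : e 1 = 1 := by
  rw [e]; simpa using Complex.exp_two_pi_mul_I

theorem norm_e (x : ℝ) : ‖e x‖ = 1 := by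
  rw [e, show (2 * (π : ℂ) * I * x) = ((2 * π * x : ℝ) : ℂ) * I by push_cast; ring]
  exact Complex.norm_exp_ofReal_mul_I _

theorem e_ne_zero (x : ℝ) : e x ≠ 0 := Complex.exp_ne_zero _

theorem continuous_e : Continuous e := by
  unfold e; fun_prop

theorem e_periodic : Function.Periodic e 1 := fun x => by rw [e_add, e_one, mul_one]

theorem conj_e (x : ℝ) : conj (e x) = (e x)⁻¹ := by
  have h := Complex.mul_conj (e x)
  rw [Complex.normSq_eq_norm_sq, norm_e] at h
  simp at h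
  exact eq_inv_of_mul_eq_one_right h

theorem e_pow (x : ℝ) (n : ℕ) : e x ^ n = e (n * x) := by
  rw [e, e, ← Complex.exp_nat_mul]; congr 1; push_cast; ring

theorem e_zpow (x : ℝ) (n : ℤ) : e x ^ n = e (n * x) := by
  rw [e, e, ← Complex.exp_int_mul]; congr 1; push_cast; ring

theorem integral_zpow_e (k : ℤ) : ∫ x in (0:ℝ)..1, (e x) ^ k = if k = 0 then 1 else 0 := by
  split_ifs with h
  · subst h; simp
  · have hc : (2 * π * I * k : ℂ) ≠ 0 := by
      have : (π : ℂ) ≠ 0 := by exact_mod_cast Real.pi_ne_zero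
      have h' : (k : ℂ) ≠ 0 := by exact_mod_cast h
      simp [this, h']
    have h1 : ∀ x : ℝ, (e x) ^ k = Complex.exp ((2 * π * I * k) * x) := fun x => by
      rw [e, ← Complex.exp_int_mul]; congr 1; ring
    simp_rw [h1]
    rw [integral_exp_mul_complex hc]
    have h2 : (2 * π * I * k * ((1 : ℝ) : ℂ)) = k * (2 * π * I) := by push_cast; ring
    rw [h2, Complex.exp_int_mul_two_pi_mul_I]
    simp

section series
variable {b : ℕ → ℂ} {g : ℂ → ℂ} (hg : ∀ z : ℂ, ‖z‖ < 1 → HasSum (fun n => b n * z ^ n) (g z))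
include hg

theorem summ {r : ℝ} (hr : 0 ≤ r) (hr1 : r < 1) : Summable fun n => ‖b n‖ * r ^ n := by
  have h := (hg (r : ℂ) (by rw [Complex.norm_real, Real.norm_of_nonneg hr]; exact hr1)).summable.norm
  refine h.congr fun n => ?_
  rw [norm_mul, norm_pow, Complex.norm_real, Real.norm_of_nonneg hr]

theorem norm_re (r : ℝ) (hr : 0 ≤ r) (x : ℝ) : ‖(r : ℂ) * e x‖ = r := by
  rw [norm_mul, norm_e, Complex.norm_real, Real.norm_of_nonneg hr, mul_one]

theorem cont_circle {r : ℝ} (hr : 0 ≤ r) (hr1 : r < 1) : Continuous fun x : ℝ => g (r * e x) := by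
  have h1 : ∀ x : ℝ, g (r * e x) = ∑' n, b n * (r * e x) ^ n := fun x =>
    (hg _ (by rw [norm_re hg r hr]; exact hr1)).tsum_eq.symm
  simp_rw [h1]
  refine continuous_tsum (fun n => ?_) (summ hg hr hr1) fun n x => ?_
  · exact continuous_const.mul ((continuous_const.mul continuous_e).pow n)
  · rw [norm_mul, norm_pow, norm_re hg r hr]

theorem coeff_integral {r : ℝ} (hr : 0 ≤ r) (hr1 : r < 1) (n : ℕ) :
    ∫ x in (0:ℝ)..1, g (r * e x) * (e x) ^ (-(n : ℤ)) = b n * r ^ n := by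
  have hs := summ hg hr hr1
  have h1 : HasSum (fun m => ∫ x in (0:ℝ)..1, b m * (r * e x) ^ m * (e x) ^ (-(n : ℤ)))
      (∫ x in (0:ℝ)..1, g (r * e x) * (e x) ^ (-(n : ℤ))) := by
    refine hasSum_integral_of_dominated_convergence (fun m _ => ‖b m‖ * r ^ m) ?_ ?_ ?_ ?_ ?_
    · intro m
      refine Continuous.aestronglyMeasurable ?_
      exact (continuous_const.mul ((continuous_const.mul continuous_e).pow m)).mul
        (continuous_e.zpow₀ _ fun x => Or.inl (e_ne_zero x))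
    · intro m
      refine Filter.Eventually.of_forall fun x _ => ?_
      rw [norm_mul, norm_mul, norm_pow, norm_re hg r hr, norm_zpow, norm_e, one_zpow, mul_one]
    · exact Filter.Eventually.of_forall fun x _ => hs
    · exact intervalIntegrable_const
    · refine Filter.Eventually.of_forall fun x _ => ?_
      exact (hg _ (by rw [norm_re hg r hr]; exact hr1)).mul_right _
  have h2 : ∀ m, ∫ x in (0:ℝ)..1, b m * (r * e x) ^ m * (e x) ^ (-(n : ℤ)) =
      if m = n then b n * r ^ n else 0 := by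
    intro m
    have h3 : ∀ x : ℝ, b m * (r * e x) ^ m * (e x) ^ (-(n : ℤ)) =
        (b m * r ^ m) * (e x) ^ ((m : ℤ) - n) := by
      intro x
      rw [zpow_sub₀ (e_ne_zero x), mul_pow, zpow_neg]
      simp only [zpow_natCast]
      field_simp
    simp_rw [h3]
    rw [intervalIntegral.integral_const_mul, integral_zpow_e]
    by_cases hmn : m = n
    · subst hmn; simp
    · rw [if_neg hmn, if_neg (by omega), mul_zero]
  simp_rw [h2] at h1
  exact h1.unique (hasSum_ite_eq n _) |>.trans (by rfl)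

theorem parseval {r : ℝ} (hr : 0 ≤ r) (hr1 : r < 1) :
    HasSum (fun n => ‖b n‖ ^ 2 * r ^ (2 * n)) (∫ x in (0:ℝ)..1, ‖g (r * e x)‖ ^ 2) := by
  have hs := summ hg hr hr1
  have hc := cont_circle hg hr hr1
  obtain ⟨B, hB⟩ : ∃ B, ∀ x : ℝ, ‖g (r * e x)‖ ≤ B := by
    refine ⟨∑' n, ‖b n‖ * r ^ n, fun x => ?_⟩
    rw [← (hg _ (by rw [norm_re hg r hr]; exact hr1)).tsum_eq]
    refine (norm_tsum_le_tsum_norm ?_).trans (le_of_eq ?_)
    · refine hs.congr fun n => ?_
      rw [norm_mul, norm_pow, norm_re hg r hr]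
    · congr 1; ext n; rw [norm_mul, norm_pow, norm_re hg r hr]
  have h1 : HasSum (fun m => ∫ x in (0:ℝ)..1, b m * (r * e x) ^ m * conj (g (r * e x)))
      (∫ x in (0:ℝ)..1, g (r * e x) * conj (g (r * e x))) := by
    refine hasSum_integral_of_dominated_convergence (fun m _ => ‖b m‖ * r ^ m * B) ?_ ?_ ?_ ?_ ?_
    · intro m
      refine Continuous.aestronglyMeasurable ?_
      exact (continuous_const.mul ((continuous_const.mul continuous_e).pow m)).mul
        (Complex.continuous_conj.comp hc)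
    · intro m
      refine Filter.Eventually.of_forall fun x _ => ?_
      rw [norm_mul, norm_mul, norm_pow, norm_re hg r hr, RCLike.norm_conj]
      exact mul_le_mul_of_nonneg_left (hB x) (by positivity)
    · exact Filter.Eventually.of_forall fun x _ => hs.mul_right B
    · exact intervalIntegrable_const
    · refine Filter.Eventually.of_forall fun x _ => ?_
      exact (hg _ (by rw [norm_re hg r hr]; exact hr1)).mul_right _
  have h2 : ∀ m, ∫ x in (0:ℝ)..1, b m * (r * e x) ^ m * conj (g (r * e x)) =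
      ((‖b m‖ ^ 2 * r ^ (2 * m) : ℝ) : ℂ) := by
    intro m
    have h3 : ∀ x : ℝ, b m * (r * e x) ^ m * conj (g (r * e x)) =
        (b m * r ^ m) * conj (g (r * e x) * (e x) ^ (-(m : ℤ))) := by
      intro x
      rw [map_mul, zpow_neg, map_inv₀, zpow_natCast, map_pow, conj_e, inv_pow, inv_inv, mul_pow]
      ring
    simp_rw [h3]
    rw [intervalIntegral.integral_const_mul]
    have h4 : ∫ x in (0:ℝ)..1, conj (g (r * e x) * (e x) ^ (-(m : ℤ))) =
        conj (∫ x in (0:ℝ)..1, g (r * e x) * (e x) ^ (-(m : ℤ))) := by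
      rw [intervalIntegral.intervalIntegral_eq_integral_uIoc,
        intervalIntegral.intervalIntegral_eq_integral_uIoc]
      simp only [zero_le_one, if_true, one_smul]
      exact integral_conj
    rw [h4, coeff_integral hg hr hr1]
    have h5 : b m * (r : ℂ) ^ m * conj (b m * (r : ℂ) ^ m) = ((‖b m * (r : ℂ) ^ m‖ ^ 2 : ℝ) : ℂ) := by
      rw [Complex.mul_conj, Complex.normSq_eq_norm_sq]
    rw [h5, norm_mul, norm_pow, Complex.norm_real, Real.norm_of_nonneg hr, mul_pow, ← pow_mul,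
      mul_comm m 2]
  simp_rw [h2] at h1
  have h6 : (∫ x in (0:ℝ)..1, g (r * e x) * conj (g (r * e x))) =
      ((∫ x in (0:ℝ)..1, ‖g (r * e x)‖ ^ 2 : ℝ) : ℂ) := by
    rw [← intervalIntegral.integral_ofReal]
    congr 1
    ext x
    rw [Complex.mul_conj, Complex.normSq_eq_norm_sq]
  rw [h6] at h1
  exact_mod_cast h1

end series

end H16B

end part1

section part2

open MeasureTheory intervalIntegral Finset

namespace H16B

/-- 4-adic martingale densities -/
def u : ℕ → ℤ → ℕ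
  | 0, _ => 1
  | n + 1, i =>
      if u n (i / 4) = 0 then 0
      else if i % 4 = 1 then u n (i / 4) + 1
      else if i % 4 = 2 then u n (i / 4) - 1
      else u n (i / 4)

theorem u_succ (n : ℕ) (i : ℤ) : u (n + 1) i =
      if u n (i / 4) = 0 then 0
      else if i % 4 = 1 then u n (i / 4) + 1
      else if i % 4 = 2 then u n (i / 4) - 1
      else u n (i / 4) := rfl

theorem u_period (n : ℕ) : ∀ i : ℤ, u n (i + 4 ^ n) = u n i := by
  induction n with
  | zero => intro i; rfl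
  | succ n ih =>
    intro i
    have h1 : (i + 4 ^ (n + 1)) / 4 = i / 4 + 4 ^ n := by
      rw [pow_succ]; omega
    have h2 : (i + 4 ^ (n + 1)) % 4 = i % 4 := by
      rw [pow_succ]; omega
    rw [u_succ, u_succ, h1, h2, ih]

theorem u_step (n : ℕ) (i : ℤ) : |(u (n + 1) i : ℤ) - u n (i / 4)| ≤ 1 := by
  rw [u_succ]
  split_ifs with h1 h2 h3
  · rw [h1]; simp
  · push_cast; rw [abs_le]; constructor <;> omega
  · rw [abs_le]; constructor <;> omega
  · simp

theorem u_adj (n : ℕ) : ∀ i : ℤ, |(u n i : ℤ) - u n (i + 1)| ≤ 2 := by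
  induction n with
  | zero => intro i; simp [u]
  | succ n ih =>
    intro i
    by_cases h : i % 4 = 3
    · have h1 : (i + 1) / 4 = i / 4 + 1 := by omega
      have h2 : (i + 1) % 4 = 0 := by omega
      have := ih (i / 4)
      rw [u_succ, u_succ, h1, h2, h]
      rw [abs_le] at this ⊢
      norm_num
      split_ifs <;> constructor <;> push_cast <;> omega
    · have h1 : (i + 1) / 4 = i / 4 := by omega
      rw [abs_le]
      rw [u_succ, u_succ, h1]
      split_ifs <;> constructor <;> push_cast <;> omega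

theorem u_le (n : ℕ) (i : ℤ) : u n i ≤ n + 1 := by
  induction n generalizing i with
  | zero => simp [u]
  | succ n ih =>
    have h1 := u_step n i
    have h2 := ih (i / 4)
    rw [abs_le] at h1
    omega

/-- density function on the line -/
noncomputable def V (n : ℕ) (x : ℝ) : ℝ := u n ⌊(4 : ℝ) ^ n * x⌋

theorem floor_div4 (n : ℕ) (x : ℝ) : ⌊(4 : ℝ) ^ (n + 1) * x⌋ / 4 = ⌊(4 : ℝ) ^ n * x⌋ := by
  have := Int.floor_div_natCast ((4 : ℝ) ^ (n + 1) * x) 4
  rw [show ((4 : ℕ) : ℤ) = 4 by rfl] at this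
  rw [← this]
  congr 1
  push_cast
  rw [pow_succ]
  ring

theorem V_nonneg (n : ℕ) (x : ℝ) : 0 ≤ V n x := Nat.cast_nonneg _

theorem V_le (n : ℕ) (x : ℝ) : V n x ≤ n + 1 := by
  unfold V
  exact_mod_cast u_le n _

theorem V_periodic (n : ℕ) : Function.Periodic (V n) 1 := by
  intro x
  unfold V
  have : (4 : ℝ) ^ n * (x + 1) = 4 ^ n * x + ((4 ^ n : ℤ) : ℝ) := by push_cast; ring
  rw [this, Int.floor_add_intCast, u_period]

theorem V_measurable (n : ℕ) : Measurable (V n) := by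
  unfold V
  exact (measurable_of_countable (fun i : ℤ => ((u n i : ℕ) : ℝ))).comp
    (Int.measurable_floor.comp (measurable_const.mul measurable_id))

theorem V_step (n : ℕ) (x : ℝ) : |V (n + 1) x - V n x| ≤ 1 := by
  unfold V
  rw [← floor_div4 n x]
  generalize ⌊(4 : ℝ) ^ (n + 1) * x⌋ = i
  have := u_step n i
  exact_mod_cast this

theorem u_near (i j : ℤ) (n : ℕ) (h1 : i ≤ j) (h2 : j ≤ i + 1) :
    |(u n i : ℝ) - u n j| ≤ 2 := by
  rcases (by omega : j = i ∨ j = i + 1) with rfl | rfl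
  · simp
  · exact_mod_cast u_adj n i

theorem V_near (n : ℕ) (x y : ℝ) (h : |x - y| * 4 ^ n ≤ 1) : |V n x - V n y| ≤ 2 := by
  have h' : |(4 : ℝ) ^ n * x - 4 ^ n * y| ≤ 1 := by
    rw [← mul_sub, abs_mul, abs_of_pos (by positivity : (0 : ℝ) < 4 ^ n), mul_comm]
    exact h
  rw [abs_le] at h'
  unfold V
  generalize (4 : ℝ) ^ n * x = X at h' ⊢
  generalize (4 : ℝ) ^ n * y = Y at h' ⊢
  have h1 := Int.floor_le X
  have h2 := Int.lt_floor_add_one X
  have h3 := Int.floor_le Y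
  have h4 := Int.lt_floor_add_one Y
  rcases le_total ⌊X⌋ ⌊Y⌋ with h5 | h5
  · apply u_near _ _ _ h5
    have : ((⌊Y⌋ : ℤ) : ℝ) < ⌊X⌋ + 2 := by linarith
    have : ⌊Y⌋ < ⌊X⌋ + 2 := by exact_mod_cast this
    omega
  · rw [abs_sub_comm]
    apply u_near _ _ _ h5
    have : ((⌊X⌋ : ℤ) : ℝ) < ⌊Y⌋ + 2 := by linarith
    have : ⌊X⌋ < ⌊Y⌋ + 2 := by exact_mod_cast this
    omega

theorem V_diff (l : ℕ) : ∀ (n : ℕ) (x y : ℝ), |x - y| * 4 ^ n ≤ 4 ^ l →
    |V n x - V n y| ≤ 2 + 2 * l := by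
  induction l with
  | zero =>
    intro n x y h
    have := V_near n x y (by rw [pow_zero] at h; exact h)
    simp only [Nat.cast_zero, mul_zero, add_zero]
    exact this
  | succ l ih =>
    intro n x y h
    cases n with
    | zero =>
      have : V 0 x - V 0 y = 0 := by simp [V, u]
      rw [this]
      simp only [abs_zero]
      positivity
    | succ n =>
      have h' : |x - y| * 4 ^ n ≤ 4 ^ l := by
        rw [pow_succ, pow_succ] at h
        linarith
      have h1 := ih n x y h'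
      have h2 := V_step n x
      have h3 := V_step n y
      rw [abs_le] at h1 h2 h3 ⊢
      push_cast
      constructor <;> linarith

/-- Hoelder type bound -/
theorem V_holder (n : ℕ) (x y : ℝ) : |V n x - V n y| ≤ 4 * (1 + Real.sqrt (4 ^ n * |x - y|)) := by
  set d := (4 : ℝ) ^ n * |x - y| with hd
  have hd0 : 0 ≤ d := by positivity
  have hex : ∃ l : ℕ, d ≤ 4 ^ l := by
    obtain ⟨l, hl⟩ := pow_unbounded_of_one_lt d (by norm_num : (1 : ℝ) < 4)
    exact ⟨l, hl.le⟩
  classical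
  set l := Nat.find hex with hl
  have h1 : d ≤ 4 ^ l := Nat.find_spec hex
  have h2 := V_diff l n x y (by rw [mul_comm]; exact h1)
  refine h2.trans ?_
  rcases Nat.eq_zero_or_pos l with h0 | h0
  · rw [h0]
    have := Real.sqrt_nonneg d
    simp only [Nat.cast_zero]
    linarith
  · have h3 : (4 : ℝ) ^ (l - 1) < d := by
      have := Nat.find_min hex (m := l - 1) (by omega)
      push Not at this
      exact this
    have h4 : (2 : ℝ) ^ (l - 1) ≤ Real.sqrt d := by
      rw [show (2 : ℝ) ^ (l - 1) = Real.sqrt (4 ^ (l - 1)) by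
        rw [show (4 : ℝ) ^ (l - 1) = (2 ^ (l - 1)) ^ 2 by rw [← pow_mul, mul_comm, pow_mul]; norm_num,
          Real.sqrt_sq (by positivity)]]
      exact Real.sqrt_le_sqrt h3.le
    have h5 : (l : ℝ) ≤ 2 ^ (l - 1) := by
      have : l ≤ 2 ^ (l - 1) := by
        have := Nat.lt_two_pow_self (n := l - 1)
        omega
      exact_mod_cast this
    linarith

/-- second moments -/
noncomputable def E (n : ℕ) : ℝ := (∑ i ∈ range (4 ^ n), (u n (i : ℤ) : ℝ) ^ 2) / 4 ^ n

theorem sum_four (f : ℕ → ℝ) (N : ℕ) :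
    ∑ i ∈ range (N * 4), f i =
      ∑ p ∈ range N, (f (4 * p) + f (4 * p + 1) + f (4 * p + 2) + f (4 * p + 3)) := by
  induction N with
  | zero => simp
  | succ N ih =>
    rw [sum_range_succ, ← ih, show (N + 1) * 4 = N * 4 + 1 + 1 + 1 + 1 by ring,
      sum_range_succ, sum_range_succ, sum_range_succ, sum_range_succ, mul_comm 4 N]
    ring

theorem u_children (n p : ℕ) :
    u (n + 1) ((4 * p : ℕ) : ℤ) = u n (p : ℤ) ∧
    u (n + 1) ((4 * p + 1 : ℕ) : ℤ) = (if u n (p : ℤ) = 0 then 0 else u n (p : ℤ) + 1) ∧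
    u (n + 1) ((4 * p + 2 : ℕ) : ℤ) = u n (p : ℤ) - 1 ∧
    u (n + 1) ((4 * p + 3 : ℕ) : ℤ) = u n (p : ℤ) := by
  have a0 : ((4 * p : ℕ) : ℤ) / 4 = p := by push_cast; omega
  have a1 : ((4 * p + 1 : ℕ) : ℤ) / 4 = p := by push_cast; omega
  have a2 : ((4 * p + 2 : ℕ) : ℤ) / 4 = p := by push_cast; omega
  have a3 : ((4 * p + 3 : ℕ) : ℤ) / 4 = p := by push_cast; omega
  have b0 : ((4 * p : ℕ) : ℤ) % 4 = 0 := by push_cast; omega
  have b1 : ((4 * p + 1 : ℕ) : ℤ) % 4 = 1 := by push_cast; omega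
  have b2 : ((4 * p + 2 : ℕ) : ℤ) % 4 = 2 := by push_cast; omega
  have b3 : ((4 * p + 3 : ℕ) : ℤ) % 4 = 3 := by push_cast; omega
  refine ⟨?_, ?_, ?_, ?_⟩
  · rw [u_succ, a0, b0]; norm_num; intro h; exact h.symm
  · rw [u_succ, a1, b1]; norm_num
  · rw [u_succ, a2, b2]; norm_num; intro h; rw [h]
  · rw [u_succ, a3, b3]; norm_num; intro h; exact h.symm

theorem sum_u (n : ℕ) : ∑ i ∈ range (4 ^ n), (u n (i : ℤ) : ℝ) = 4 ^ n := by
  induction n with
  | zero => simp [u]
  | succ n ih =>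
    rw [pow_succ, sum_four]
    have : ∀ p ∈ range (4 ^ n), ((u (n + 1) ((4 * p : ℕ) : ℤ) : ℝ) + (u (n + 1) ((4 * p + 1 : ℕ) : ℤ) : ℝ)
        + (u (n + 1) ((4 * p + 2 : ℕ) : ℤ) : ℝ) + (u (n + 1) ((4 * p + 3 : ℕ) : ℤ) : ℝ))
        = 4 * (u n (p : ℤ) : ℝ) := by
      intro p _
      obtain ⟨h0, h1, h2, h3⟩ := u_children n p
      rw [h0, h1, h2, h3]
      by_cases h : u n (p : ℤ) = 0
      · simp [h]
      · rw [if_neg h]
        have : 1 ≤ u n (p : ℤ) := Nat.one_le_iff_ne_zero.mpr h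
        push_cast [Nat.cast_sub this]
        ring
    rw [sum_congr rfl this, ← mul_sum, ih, pow_succ]
    ring

theorem E_succ (n : ℕ) : E (n + 1) = E n +
    (1 / 2) * (∑ i ∈ range (4 ^ n), (if u n (i : ℤ) = 0 then (0 : ℝ) else 1)) / 4 ^ n := by
  unfold E
  rw [pow_succ, sum_four]
  have : ∀ p ∈ range (4 ^ n), ((u (n + 1) ((4 * p : ℕ) : ℤ) : ℝ) ^ 2 + (u (n + 1) ((4 * p + 1 : ℕ) : ℤ) : ℝ) ^ 2
      + (u (n + 1) ((4 * p + 2 : ℕ) : ℤ) : ℝ) ^ 2 + (u (n + 1) ((4 * p + 3 : ℕ) : ℤ) : ℝ) ^ 2)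
      = 4 * (u n (p : ℤ) : ℝ) ^ 2 + 2 * (if u n (p : ℤ) = 0 then (0 : ℝ) else 1) := by
    intro p _
    obtain ⟨h0, h1, h2, h3⟩ := u_children n p
    rw [h0, h1, h2, h3]
    by_cases h : u n (p : ℤ) = 0
    · simp [h]
    · rw [if_neg h, if_neg h]
      have : 1 ≤ u n (p : ℤ) := Nat.one_le_iff_ne_zero.mpr h
      push_cast [Nat.cast_sub this]
      ring
  rw [sum_congr rfl this, sum_add_distrib, ← mul_sum, ← mul_sum, pow_succ]
  field_simp
  ring

theorem E_pos (n : ℕ) : 1 ≤ E n := by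
  have h := sum_mul_sq_le_sq_mul_sq (range (4 ^ n)) (fun i => (1 : ℝ)) (fun i => (u n (i : ℤ) : ℝ))
  simp only [one_mul, sum_u, one_pow, sum_const, card_range, nsmul_eq_mul, mul_one] at h
  unfold E
  rw [le_div_iff₀ (by positivity), one_mul]
  push_cast at h
  have h4 : (0 : ℝ) < 4 ^ n := by positivity
  nlinarith

theorem E_growth (n : ℕ) : E n + 1 / (2 * E n) ≤ E (n + 1) := by
  rw [E_succ]
  set Q := ∑ i ∈ range (4 ^ n), (if u n (i : ℤ) = 0 then (0 : ℝ) else 1) with hQ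
  have h := sum_mul_sq_le_sq_mul_sq (range (4 ^ n)) (fun i => (if u n (i : ℤ) = 0 then (0 : ℝ) else 1))
    (fun i => (u n (i : ℤ) : ℝ))
  have h1 : ∀ i ∈ range (4 ^ n), (if u n (i : ℤ) = 0 then (0 : ℝ) else 1) * (u n (i : ℤ) : ℝ)
      = (u n (i : ℤ) : ℝ) := by
    intro i _
    split_ifs with h0
    · rw [h0]; simp
    · ring
  have h2 : ∀ i ∈ range (4 ^ n), (if u n (i : ℤ) = 0 then (0 : ℝ) else 1) ^ 2
      = (if u n (i : ℤ) = 0 then (0 : ℝ) else 1) := by
    intro i _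
    split_ifs <;> simp
  rw [sum_congr rfl h1, sum_congr rfl h2, sum_u, ← hQ] at h
  have h3 : ∑ i ∈ range (4 ^ n), (u n (i : ℤ) : ℝ) ^ 2 = E n * 4 ^ n := by
    unfold E; field_simp
  rw [h3] at h
  have h4 : (0 : ℝ) < 4 ^ n := by positivity
  have h5 := E_pos n
  have h6 : (4 : ℝ) ^ n ≤ Q * E n := by
    have : (4 : ℝ) ^ n * 4 ^ n ≤ (Q * E n) * 4 ^ n := by nlinarith
    exact le_of_mul_le_mul_right this h4
  have h7 : 1 / E n ≤ Q / 4 ^ n := by
    rw [div_le_div_iff₀ (by linarith) h4]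
    linarith
  have h8 : 1 / (2 * E n) = (1 / 2) * (1 / E n) := by field_simp
  have h9 : 1 / 2 * Q / 4 ^ n = (1 / 2) * (Q / 4 ^ n) := by ring
  rw [h8, h9]
  linarith

theorem E_sqrt (n : ℕ) : Real.sqrt (n + 1) ≤ E n := by
  have h : ∀ n : ℕ, (n : ℝ) + 1 ≤ E n ^ 2 := by
    intro n
    induction n with
    | zero => have := E_pos 0; push_cast; nlinarith
    | succ n ih =>
      have h1 := E_growth n
      have h2 := E_pos n
      have h3 : 0 < 1 / (2 * E n) := by positivity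
      have h4 : (E n + 1 / (2 * E n)) ^ 2 ≤ E (n + 1) ^ 2 := by
        apply pow_le_pow_left₀ (by positivity) h1
      have h5 : (E n + 1 / (2 * E n)) ^ 2 = E n ^ 2 + 1 + (1 / (2 * E n)) ^ 2 := by
        field_simp
        ring
      push_cast
      nlinarith [sq_nonneg (1 / (2 * E n))]
  rw [show E n = Real.sqrt (E n ^ 2) by rw [Real.sqrt_sq (by linarith [E_pos n])]]
  exact Real.sqrt_le_sqrt (h n)

end H16B

end part2

section part3

open MeasureTheory intervalIntegral Finset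

namespace H16B

theorem int_floor (G : ℤ → ℝ) (N : ℕ) (hN : 0 < N) :
    ∫ x in (0:ℝ)..1, G ⌊(N : ℝ) * x⌋ = (∑ i ∈ range N, G i) / N := by
  have hN' : (0 : ℝ) < N := by exact_mod_cast hN
  have hpiece : ∀ k : ℕ, ∀ᵐ x : ℝ, x ∈ Set.uIoc ((k : ℝ) / N) (((k + 1 : ℕ) : ℝ) / N) →
      G ⌊(N : ℝ) * x⌋ = G k := by
    intro k
    have h0 : ∀ᵐ x : ℝ, x ≠ ((k + 1 : ℕ) : ℝ) / N := by
      have := MeasureTheory.Measure.ae_ne (μ := (volume : Measure ℝ)) (((k + 1 : ℕ) : ℝ) / N)
      exact this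
    filter_upwards [h0] with x hx hx2
    have hle : (k : ℝ) / N ≤ ((k + 1 : ℕ) : ℝ) / N := by
      push_cast
      gcongr
      linarith
    rw [Set.uIoc_of_le hle] at hx2
    have h1 : (k : ℝ) < N * x := by
      have := hx2.1
      rw [div_lt_iff₀ hN'] at this
      linarith
    have h2 : (N : ℝ) * x < k + 1 := by
      have := lt_of_le_of_ne hx2.2 hx
      rw [lt_div_iff₀ hN'] at this
      push_cast at this
      linarith
    congr 1
    rw [Int.floor_eq_iff]
    push_cast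
    exact ⟨h1.le, h2⟩
  have hint : ∀ k : ℕ, ∫ x in ((k : ℝ) / N)..(((k + 1 : ℕ) : ℝ) / N), G ⌊(N : ℝ) * x⌋ = G k / N := by
    intro k
    rw [intervalIntegral.integral_congr_ae (hpiece k), intervalIntegral.integral_const, smul_eq_mul]
    push_cast
    field_simp
    ring
  have hii : ∀ k : ℕ, IntervalIntegrable (fun x : ℝ => G ⌊(N : ℝ) * x⌋) volume
      ((k : ℝ) / N) (((k + 1 : ℕ) : ℝ) / N) := by
    intro k
    have hc : IntervalIntegrable (fun _ : ℝ => G k) volume ((k : ℝ) / N) (((k + 1 : ℕ) : ℝ) / N) :=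
      intervalIntegrable_const
    refine hc.congr_ae ?_
    have := hpiece k
    rw [Filter.EventuallyEq, ae_restrict_iff' measurableSet_uIoc]
    filter_upwards [this] with x hx hx2
    exact (hx hx2).symm
  have hsum := intervalIntegral.sum_integral_adjacent_intervals (a := fun k : ℕ => (k : ℝ) / N)
    (n := N) (f := fun x : ℝ => G ⌊(N : ℝ) * x⌋) (μ := volume) (fun k _ => hii k)
  simp only [Nat.cast_zero, zero_div] at hsum
  rw [div_self hN'.ne'] at hsum
  rw [← hsum, Finset.sum_div]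
  exact sum_congr rfl fun k _ => hint k

theorem int_V (n : ℕ) : ∫ x in (0:ℝ)..1, V n x = 1 := by
  have := int_floor (fun i => (u n i : ℝ)) (4 ^ n) (by positivity)
  push_cast at this
  unfold V
  rw [this, sum_u, div_self (by positivity)]

theorem int_V_sq (n : ℕ) : ∫ x in (0:ℝ)..1, V n x ^ 2 = E n := by
  have := int_floor (fun i => (u n i : ℝ) ^ 2) (4 ^ n) (by positivity)
  push_cast at this
  unfold V
  rw [this, E]

/-- the set where the density increases -/
noncomputable def aa (n : ℕ) (x : ℝ) : ℝ :=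
  if ⌊(4 : ℝ) ^ (n + 1) * x⌋ % 4 = 1 ∧ u n (⌊(4 : ℝ) ^ (n + 1) * x⌋ / 4) ≠ 0 then 1 else 0

theorem aa_nonneg (n : ℕ) (x : ℝ) : 0 ≤ aa n x := by
  unfold aa; split_ifs <;> norm_num

theorem aa_le (n : ℕ) (x : ℝ) : aa n x ≤ 1 := by
  unfold aa; split_ifs <;> norm_num

theorem aa_measurable (n : ℕ) : Measurable (aa n) := by
  unfold aa
  exact (measurable_of_countable (fun i : ℤ => if i % 4 = 1 ∧ u n (i / 4) ≠ 0 then (1 : ℝ) else 0)).comp
    (Int.measurable_floor.comp (measurable_const.mul measurable_id))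

theorem aa_periodic (n : ℕ) : Function.Periodic (aa n) 1 := by
  intro x
  unfold aa
  have : (4 : ℝ) ^ (n + 1) * (x + 1) = 4 ^ (n + 1) * x + ((4 ^ (n + 1) : ℤ) : ℝ) := by push_cast; ring
  rw [this, Int.floor_add_intCast]
  generalize ⌊(4 : ℝ) ^ (n + 1) * x⌋ = i
  have h1 : (i + 4 ^ (n + 1)) / 4 = i / 4 + 4 ^ n := by
    rw [pow_succ]; omega
  have h2 : (i + 4 ^ (n + 1)) % 4 = i % 4 := by
    rw [pow_succ]; omega
  rw [h1, h2, u_period]

/-- step length -/
noncomputable def hh (n : ℕ) : ℝ := 1 / 4 ^ (n + 1)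

theorem V_succ_sub (n : ℕ) (x : ℝ) : V (n + 1) x - V n x = aa n x - aa n (x - hh n) := by
  have h1 : (4 : ℝ) ^ (n + 1) * (x - hh n) = 4 ^ (n + 1) * x - 1 := by
    unfold hh; field_simp
  unfold V aa
  rw [h1, ← floor_div4 n x, Int.floor_sub_one]
  generalize ⌊(4 : ℝ) ^ (n + 1) * x⌋ = i
  rw [u_succ]
  by_cases h0 : u n (i / 4) = 0
  · rw [h0]
    by_cases h3 : (i - 1) % 4 = 1
    · have : (i - 1) / 4 = i / 4 := by omega
      simp [this, h0]
    · simp [h3]
  · by_cases h3 : (i - 1) % 4 = 1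
    · have e1 : (i - 1) / 4 = i / 4 := by omega
      have e2 : i % 4 = 2 := by omega
      have e3 : 1 ≤ u n (i / 4) := Nat.one_le_iff_ne_zero.mpr h0
      simp only [e1, e2, h3]
      norm_num
      rw [Nat.cast_sub e3]
      simp [h0]
    · by_cases h4 : i % 4 = 1
      · simp [h0, h3, h4]
      · have h5 : i % 4 ≠ 2 := by omega
        simp [h0, h3, h4, h5]

section
variable {F : Type*} [NormedAddCommGroup F] [NormedSpace ℝ F] [CompleteSpace F]

theorem bdd_intble (φ : ℝ → ℝ) (hφ : Measurable φ) (C : ℝ) (hC : ∀ x, |φ x| ≤ C)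
    (P : ℝ → F) (hP : Continuous P) (a b : ℝ) :
    IntervalIntegrable (fun x => φ x • P x) volume a b := by
  have h1 : IntervalIntegrable P volume a b := hP.intervalIntegrable a b
  have h2 := h1.norm.const_mul C
  refine h2.mono_fun ?_ ?_
  · exact (hφ.aestronglyMeasurable).smul hP.aestronglyMeasurable
  · refine Filter.Eventually.of_forall fun x => ?_
    show ‖φ x • P x‖ ≤ ‖C * ‖P x‖‖
    rw [norm_smul, Real.norm_eq_abs, norm_mul, norm_norm]
    have hC0 : 0 ≤ C := (abs_nonneg _).trans (hC 0)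
    rw [Real.norm_of_nonneg hC0]
    exact mul_le_mul_of_nonneg_right (hC x) (norm_nonneg _)

/-- the approximating functional -/
noncomputable def L (n : ℕ) (P : ℝ → F) : F := ∫ x in (0:ℝ)..1, V n x • P x

theorem V_abs_le (n : ℕ) (x : ℝ) : |V n x| ≤ n + 1 := by
  rw [abs_of_nonneg (V_nonneg n x)]; exact V_le n x

theorem aa_abs_le (n : ℕ) (x : ℝ) : |aa n x| ≤ 1 := by
  rw [abs_of_nonneg (aa_nonneg n x)]; exact aa_le n x

theorem L_succ_sub (n : ℕ) (P : ℝ → F) (hP : Continuous P) (hper : Function.Periodic P 1) :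
    L (n + 1) P - L n P = ∫ x in (0:ℝ)..1, aa n x • (P x - P (x + hh n)) := by
  unfold L
  rw [← intervalIntegral.integral_sub
    (bdd_intble _ (V_measurable _) _ (V_abs_le _) P hP 0 1)
    (bdd_intble _ (V_measurable _) _ (V_abs_le _) P hP 0 1)]
  have h1 : ∀ x, V (n + 1) x • P x - V n x • P x = aa n x • P x - aa n (x - hh n) • P x := by
    intro x
    rw [← sub_smul, V_succ_sub, sub_smul]
  simp_rw [h1, smul_sub]
  have hm : Measurable fun x => aa n (x - hh n) :=
    (aa_measurable n).comp (measurable_id.sub_const _)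
  have hP' : Continuous fun x => P (x + hh n) := hP.comp (continuous_add_const _)
  rw [intervalIntegral.integral_sub
    (bdd_intble _ (aa_measurable _) _ (aa_abs_le _) P hP 0 1)
    (bdd_intble _ hm 1 (fun x => aa_abs_le _ _) P hP 0 1),
    intervalIntegral.integral_sub
    (bdd_intble _ (aa_measurable _) _ (aa_abs_le _) P hP 0 1)
    (bdd_intble _ (aa_measurable _) _ (aa_abs_le _) (fun x => P (x + hh n)) hP' 0 1)]
  congr 1
  have hQ : Function.Periodic (fun x => aa n x • P (x + hh n)) 1 := by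
    intro x
    show aa n (x + 1) • P (x + 1 + hh n) = aa n x • P (x + hh n)
    rw [aa_periodic, show x + 1 + hh n = x + hh n + 1 by ring, hper]
  have h2 : ∀ x, aa n (x - hh n) • P x = (fun y => aa n y • P (y + hh n)) (x - hh n) := by
    intro x
    simp
  simp_rw [h2]
  rw [intervalIntegral.integral_comp_sub_right (fun y => aa n y • P (y + hh n))]
  have := hQ.intervalIntegral_add_eq (0 - hh n) 0
  rw [show (0 : ℝ) - hh n + 1 = 1 - hh n by ring, zero_add] at this
  exact this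

theorem L_step_bound (n : ℕ) (P : ℝ → F) (hP : Continuous P) (hper : Function.Periodic P 1)
    (Q : ℝ → ℝ) (hQ : Continuous Q) (hPQ : ∀ x, ‖P x - P (x + hh n)‖ ≤ Q x) :
    ‖L (n + 1) P - L n P‖ ≤ ∫ x in (0:ℝ)..1, Q x := by
  rw [L_succ_sub n P hP hper]
  refine intervalIntegral.norm_integral_le_of_norm_le zero_le_one ?_ (hQ.intervalIntegrable 0 1)
  refine Filter.Eventually.of_forall fun x _ => ?_
  rw [norm_smul, Real.norm_eq_abs]
  calc |aa n x| * ‖P x - P (x + hh n)‖ ≤ 1 * Q x :=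
        mul_le_mul (aa_abs_le n x) (hPQ x) (norm_nonneg _) zero_le_one
    _ = Q x := one_mul _

end

end H16B

end part3

section part4

open MeasureTheory intervalIntegral Finset
open scoped Real ComplexConjugate

namespace H16B

/-- Herglotz kernel -/
noncomputable def HK (w : ℂ) (x : ℝ) : ℂ := (e x + w) / (e x - w)

/-- Poisson kernel -/
noncomputable def PK (w : ℂ) (x : ℝ) : ℝ := (1 - ‖w‖ ^ 2) / ‖e x - w‖ ^ 2

theorem sub_ne {w : ℂ} (hw : ‖w‖ < 1) (x : ℝ) : e x - w ≠ 0 := by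
  intro h
  have : e x = w := by linear_combination h
  rw [← this, norm_e] at hw
  exact lt_irrefl _ hw

theorem dist_pos {w : ℂ} (hw : ‖w‖ < 1) (x : ℝ) : 1 - ‖w‖ ≤ ‖e x - w‖ := by
  have := norm_sub_norm_le (e x) w
  rw [norm_e] at this
  exact this

theorem PK_pos {w : ℂ} (hw : ‖w‖ < 1) (x : ℝ) : 0 < PK w x := by
  unfold PK
  have h1 : 0 < ‖e x - w‖ := norm_pos_iff.mpr (sub_ne hw x)
  have h2 : 0 < 1 - ‖w‖ ^ 2 := by nlinarith [norm_nonneg w]
  positivity

theorem PK_continuous {w : ℂ} (hw : ‖w‖ < 1) : Continuous (PK w) := by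
  unfold PK
  refine Continuous.div continuous_const ?_ fun x => ?_
  · exact ((continuous_e.sub continuous_const).norm).pow 2
  · have := norm_pos_iff.mpr (sub_ne hw x)
    positivity

theorem HK_continuous {w : ℂ} (hw : ‖w‖ < 1) : Continuous (HK w) := by
  unfold HK
  exact (continuous_e.add continuous_const).div (continuous_e.sub continuous_const)
    fun x => sub_ne hw x

theorem PK_periodic (w : ℂ) : Function.Periodic (PK w) 1 := fun x => by
  unfold PK; rw [e_periodic]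

theorem HK_re {w : ℂ} (hw : ‖w‖ < 1) (x : ℝ) : (HK w x).re = PK w x := by
  unfold HK PK
  rw [div_eq_mul_inv, Complex.inv_def, ← mul_assoc, Complex.re_mul_ofReal,
    Complex.normSq_eq_norm_sq, div_eq_mul_inv]
  congr 1
  have h1 : ‖e x‖ ^ 2 = 1 := by rw [norm_e]; norm_num
  rw [← Complex.normSq_eq_norm_sq, Complex.normSq_apply] at h1
  rw [← Complex.normSq_eq_norm_sq w, Complex.normSq_apply]
  simp only [Complex.mul_re, Complex.conj_re, Complex.conj_im, Complex.add_re, Complex.add_im,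
    Complex.sub_re, Complex.sub_im]
  nlinarith

theorem HK_hasSum {w : ℂ} (hw : ‖w‖ < 1) (x : ℝ) :
    HasSum (fun m : ℕ => (if m = 0 then (1 : ℂ) else 2) * (e x) ^ (-(m : ℤ)) * w ^ m) (HK w x) := by
  have hq : ‖w * (e x)⁻¹‖ < 1 := by rw [norm_mul, norm_inv, norm_e, inv_one, mul_one]; exact hw
  have h1 := (hasSum_geometric_of_norm_lt_one hq).mul_left 2
  have h2 : HasSum (fun m : ℕ => if m = 0 then (1 : ℂ) else 0) 1 := by
    have := hasSum_ite_eq (0 : ℕ) (1 : ℂ)
    exact this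
  have h3 := h1.sub h2
  have he := e_ne_zero x
  have hne := sub_ne hw x
  have h4 : 2 * (1 - w * (e x)⁻¹)⁻¹ - 1 = HK w x := by
    unfold HK
    have : 1 - w * (e x)⁻¹ = (e x - w) / e x := by field_simp
    rw [this]
    field_simp
    ring
  rw [h4] at h3
  have h5 : (fun m : ℕ => (if m = 0 then (1 : ℂ) else 2) * (e x) ^ (-(m : ℤ)) * w ^ m) =
      fun m : ℕ => 2 * (w * (e x)⁻¹) ^ m - if m = 0 then (1 : ℂ) else 0 := by
    funext m
    by_cases hm : m = 0
    · subst hm; simp; norm_num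
    · rw [if_neg hm, if_neg hm, mul_pow, zpow_neg, zpow_natCast, inv_pow]
      ring
  rw [h5]
  exact h3

/-- Herglotz coefficients of a density -/
noncomputable def bc (φ : ℝ → ℝ) (m : ℕ) : ℂ :=
  (if m = 0 then (1 : ℂ) else 2) * ∫ x in (0:ℝ)..1, φ x • (e x) ^ (-(m : ℤ))

theorem bc_hasSum (φ : ℝ → ℝ) (hφ : Measurable φ) (C : ℝ) (hC : ∀ x, |φ x| ≤ C)
    {w : ℂ} (hw : ‖w‖ < 1) :
    HasSum (fun m : ℕ => bc φ m * w ^ m) (∫ x in (0:ℝ)..1, φ x • HK w x) := by
  have hC0 : 0 ≤ C := (abs_nonneg _).trans (hC 0)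
  have h1 : HasSum (fun m : ℕ => ∫ x in (0:ℝ)..1,
      φ x • ((if m = 0 then (1 : ℂ) else 2) * (e x) ^ (-(m : ℤ)) * w ^ m))
      (∫ x in (0:ℝ)..1, φ x • HK w x) := by
    refine hasSum_integral_of_dominated_convergence (fun m _ => C * (2 * ‖w‖ ^ m)) ?_ ?_ ?_ ?_ ?_
    · intro m
      refine (hφ.aestronglyMeasurable).smul ?_
      refine Continuous.aestronglyMeasurable ?_
      exact (continuous_const.mul (continuous_e.zpow₀ _ fun x => Or.inl (e_ne_zero x))).mul
        continuous_const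
    · intro m
      refine Filter.Eventually.of_forall fun x _ => ?_
      rw [norm_smul, Real.norm_eq_abs, norm_mul, norm_mul, norm_zpow, norm_e, one_zpow, mul_one,
        norm_pow]
      have : ‖(if m = 0 then (1 : ℂ) else 2)‖ ≤ 2 := by
        split_ifs <;> simp
      have hw0 : 0 ≤ ‖w‖ ^ m := by positivity
      exact mul_le_mul (hC x) (mul_le_mul_of_nonneg_right this hw0) (by positivity) hC0
    · have hgeo : Summable fun m => ‖w‖ ^ m := summable_geometric_of_lt_one (norm_nonneg w) hw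
      exact Filter.Eventually.of_forall fun x _ => (hgeo.mul_left 2).mul_left C
    · exact intervalIntegrable_const
    · refine Filter.Eventually.of_forall fun x _ => ?_
      exact (HK_hasSum hw x).const_smul _
  have h5 : (fun m : ℕ => bc φ m * w ^ m) = fun m : ℕ => ∫ x in (0:ℝ)..1,
      φ x • ((if m = 0 then (1 : ℂ) else 2) * (e x) ^ (-(m : ℤ)) * w ^ m) := by
    funext m
    unfold bc
    generalize (if m = 0 then (1 : ℂ) else 2) = c
    rw [← intervalIntegral.integral_const_mul, ← intervalIntegral.integral_mul_const]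
    congr 1
    funext x
    rw [Complex.real_smul, Complex.real_smul]
    ring
  rw [h5]
  exact h1

theorem bc_re (φ : ℝ → ℝ) (hφ : Measurable φ) (C : ℝ) (hC : ∀ x, |φ x| ≤ C)
    {w : ℂ} (hw : ‖w‖ < 1) :
    (∫ x in (0:ℝ)..1, φ x • HK w x).re = ∫ x in (0:ℝ)..1, φ x • PK w x := by
  have hint : IntervalIntegrable (fun x => φ x • HK w x) volume 0 1 :=
    bdd_intble φ hφ C hC _ (HK_continuous hw) 0 1
  have := intervalIntegral.intervalIntegral_eq_integral_uIoc (fun x => φ x • HK w x) 0 1 volume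
  rw [this]
  simp only [zero_le_one, if_true, one_smul]
  have h2 := intervalIntegral.intervalIntegral_eq_integral_uIoc (fun x => φ x • PK w x) 0 1 volume
  rw [h2]
  simp only [zero_le_one, if_true, one_smul]
  have h3 : Integrable (fun x => φ x • HK w x) (volume.restrict (Set.uIoc 0 1)) := by
    rw [intervalIntegrable_iff] at hint
    exact hint
  have h4 := integral_re h3
  simp only [RCLike.re_to_complex] at h4
  rw [← h4]
  congr 1
  ext x
  rw [Complex.smul_re, HK_re hw]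

theorem int_PK {w : ℂ} (hw : ‖w‖ < 1) : ∫ x in (0:ℝ)..1, PK w x = 1 := by
  have h1 := bc_hasSum (fun _ => 1) measurable_const 1 (by simp) hw
  have h2 : ∀ m : ℕ, bc (fun _ => 1) m * w ^ m = if m = 0 then 1 else 0 := by
    intro m
    unfold bc
    simp only [one_smul]
    rw [integral_zpow_e]
    by_cases hm : m = 0
    · subst hm; simp
    · rw [if_neg (by omega : -(m : ℤ) ≠ 0), if_neg hm, if_neg hm]; simp
  simp_rw [h2] at h1
  have h3 := h1.unique (hasSum_ite_eq (0 : ℕ) (1 : ℂ))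
  have h4 := bc_re (fun _ => 1) measurable_const 1 (by simp) hw
  rw [h3] at h4
  simp only [one_smul, Complex.one_re] at h4
  exact h4.symm

theorem norm_e_sub (x y : ℝ) : ‖e x - e y‖ ≤ 2 * π * |x - y| := by
  have h1 : e x - e y = e y * (Complex.exp (((2 * π * (x - y) : ℝ) : ℂ) * Complex.I) - 1) := by
    rw [mul_sub, mul_one]
    congr 1
    rw [e, e, ← Complex.exp_add]
    congr 1
    push_cast
    ring
  rw [h1, norm_mul, norm_e, one_mul]
  have h2 := Real.norm_exp_I_mul_ofReal_sub_one_le (x := 2 * π * (x - y))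
  rw [mul_comm Complex.I] at h2
  refine h2.trans (le_of_eq ?_)
  rw [Real.norm_eq_abs, abs_mul, abs_of_pos (by positivity)]

theorem PK_lip {w : ℂ} (hw : ‖w‖ < 1) (x y : ℝ) :
    |PK w x - PK w y| ≤ 2 * π * |x - y| / (1 - ‖w‖) * (PK w x + PK w y) := by
  have hs : 0 < 1 - ‖w‖ := by linarith
  have hx := dist_pos hw x
  have hy := dist_pos hw y
  set a := ‖e x - w‖ with ha
  set b := ‖e y - w‖ with hb
  have ha0 : 0 < a := by linarith
  have hb0 : 0 < b := by linarith
  have hA : 0 < 1 - ‖w‖ ^ 2 := by nlinarith [norm_nonneg w]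
  have hPx : PK w x = (1 - ‖w‖ ^ 2) / a ^ 2 := rfl
  have hPy : PK w y = (1 - ‖w‖ ^ 2) / b ^ 2 := rfl
  rw [hPx, hPy]
  set A := 1 - ‖w‖ ^ 2
  have hab : |a - b| ≤ 2 * π * |x - y| := by
    have h1 : |a - b| ≤ ‖(e x - w) - (e y - w)‖ := abs_norm_sub_norm_le _ _
    rw [show (e x - w) - (e y - w) = e x - e y by ring] at h1
    exact h1.trans (norm_e_sub x y)
  have e1 : A / a ^ 2 - A / b ^ 2 = A * (b - a) * (a + b) / (a ^ 2 * b ^ 2) := by
    field_simp
    ring
  have e2 : A / a ^ 2 + A / b ^ 2 = A * (a ^ 2 + b ^ 2) / (a ^ 2 * b ^ 2) := by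
    field_simp
    ring
  rw [e1, e2, abs_div, abs_mul, abs_mul, abs_of_pos hA, abs_of_pos (by positivity : 0 < a + b),
    abs_of_pos (by positivity : 0 < a ^ 2 * b ^ 2), abs_sub_comm b a]
  set s := 1 - ‖w‖
  set D := 2 * π * |x - y|
  have hD : 0 ≤ D := by positivity
  have h3 : A * |a - b| * (a + b) ≤ D / s * (A * (a ^ 2 + b ^ 2)) := by
    have h4 : s * (a + b) ≤ a ^ 2 + b ^ 2 := by nlinarith
    have h5 : a + b ≤ (a ^ 2 + b ^ 2) / s := by
      rw [le_div_iff₀ hs]; linarith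
    calc A * |a - b| * (a + b) ≤ A * D * ((a ^ 2 + b ^ 2) / s) := by
          apply mul_le_mul _ h5 (by positivity) (by positivity)
          exact mul_le_mul_of_nonneg_left hab hA.le
      _ = D / s * (A * (a ^ 2 + b ^ 2)) := by ring
  rw [mul_div_assoc', ]
  gcongr

theorem PK_compare {z w : ℂ} (hz : ‖z‖ < 1) (hw : ‖w - z‖ ≤ (1 - ‖z‖) / 2) (x : ℝ) :
    PK w x ≤ 12 * PK z x := by
  have hs : 0 < 1 - ‖z‖ := by linarith
  have h1 := dist_pos hz x
  have h2 : ‖e x - z‖ / 2 ≤ ‖e x - w‖ := by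
    have : ‖e x - z‖ - ‖w - z‖ ≤ ‖e x - w‖ := by
      have := norm_sub_norm_le (e x - z) (w - z)
      rwa [show e x - z - (w - z) = e x - w by ring] at this
    linarith
  have h3 : ‖z‖ - ‖w - z‖ ≤ ‖w‖ := by
    have := norm_sub_norm_le z (z - w)
    rw [show z - (z - w) = w by ring, norm_sub_rev z w] at this
    exact this
  have h3' : ‖w‖ ≤ ‖z‖ + ‖w - z‖ := by
    have := norm_add_le z (w - z)
    rwa [show z + (w - z) = w by ring] at this
  have h4 : 1 - ‖w‖ ^ 2 ≤ 3 * (1 - ‖z‖ ^ 2) := by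
    have hw1 : ‖w‖ ≤ 1 := by linarith
    have hwz : 1 - ‖w‖ ≤ 3 / 2 * (1 - ‖z‖) := by linarith
    have h5 : 1 - ‖w‖ ^ 2 ≤ 2 * (1 - ‖w‖) := by nlinarith [norm_nonneg w]
    have h6 : 1 - ‖z‖ ≤ 1 - ‖z‖ ^ 2 := by nlinarith [norm_nonneg z]
    linarith
  have hzpos : 0 < ‖e x - z‖ := by linarith
  unfold PK
  calc (1 - ‖w‖ ^ 2) / ‖e x - w‖ ^ 2 ≤ (3 * (1 - ‖z‖ ^ 2)) / (‖e x - z‖ / 2) ^ 2 := by
        have : 0 ≤ 3 * (1 - ‖z‖ ^ 2) := by nlinarith [norm_nonneg z]
        gcongr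
    _ = 12 * ((1 - ‖z‖ ^ 2) / ‖e x - z‖ ^ 2) := by field_simp; ring

theorem PK_rot (r x0 t : ℝ) : PK (r * e x0) (x0 + t) = PK r t := by
  unfold PK
  have h1 : e (x0 + t) - r * e x0 = e x0 * (e t - r) := by rw [e_add]; ring
  rw [h1, norm_mul, norm_mul, norm_e, mul_one, one_mul]

theorem PK_real (r t : ℝ) : ‖e t - r‖ ^ 2 = (1 - r) ^ 2 + 4 * r * Real.sin (π * t) ^ 2 := by
  have h1 : e t = (Real.cos (2 * (π * t)) : ℂ) + (Real.sin (2 * (π * t)) : ℂ) * Complex.I := by
    rw [e, show (2 * (π : ℂ) * Complex.I * t) = ((2 * (π * t) : ℝ) : ℂ) * Complex.I by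
      push_cast; ring, Complex.exp_mul_I, Complex.ofReal_cos, Complex.ofReal_sin]
  rw [← Complex.normSq_eq_norm_sq, Complex.normSq_apply, h1]
  simp only [Complex.sub_re, Complex.add_re, Complex.ofReal_re, Complex.mul_re, Complex.I_re,
    mul_zero, Complex.ofReal_im, Complex.I_im, mul_one, sub_self, add_zero, Complex.sub_im,
    Complex.add_im, Complex.mul_im, zero_add, sub_zero]
  have h2 := Real.sin_sq_add_cos_sq (2 * (π * t))
  have h3 := Real.cos_two_mul (π * t)
  have h4 := Real.sin_sq_add_cos_sq (π * t)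
  have h5 : Real.cos (2 * (π * t)) = 1 - 2 * Real.sin (π * t) ^ 2 := by linarith
  linear_combination h2 + (-2 * r) * h5

theorem PK_bound (r t : ℝ) (hr : 1 / 2 ≤ r) (hr1 : r < 1) (ht : |t| ≤ 1 / 2) :
    PK r t ≤ 4 * (1 - r) / ((1 - r) + |t|) ^ 2 := by
  set s := 1 - r with hs
  have hs0 : 0 < s := by linarith
  unfold PK
  rw [PK_real, Complex.norm_real, Real.norm_of_nonneg (by linarith : 0 ≤ r)]
  have hsin : 4 * t ^ 2 ≤ Real.sin (π * t) ^ 2 := by
    have h1 : ∀ y : ℝ, 0 ≤ y → y ≤ 1 / 2 → 2 * y ≤ Real.sin (π * y) := by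
      intro y hy0 hy1
      have := Real.mul_le_sin (x := π * y) (by positivity) (by nlinarith [Real.pi_pos])
      have e : 2 / π * (π * y) = 2 * y := by field_simp
      rwa [e] at this
    rcases le_total 0 t with h | h
    · have := h1 t h (by rwa [abs_of_nonneg h] at ht)
      nlinarith
    · have := h1 (-t) (by linarith) (by rwa [abs_of_nonpos h] at ht)
      simp only [mul_neg, Real.sin_neg] at this
      nlinarith
  have hden : (s + |t|) ^ 2 / 2 ≤ s ^ 2 + 4 * r * Real.sin (π * t) ^ 2 := by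
    have h1 : |t| ^ 2 = t ^ 2 := sq_abs t
    nlinarith [sq_nonneg (s - |t|), sq_nonneg t]
  have hpos : 0 < (s + |t|) ^ 2 := by positivity
  have hnum : 1 - r ^ 2 ≤ 2 * s := by nlinarith
  calc (1 - r ^ 2) / (s ^ 2 + 4 * r * Real.sin (π * t) ^ 2) ≤ 2 * s / ((s + |t|) ^ 2 / 2) := by
        gcongr
    _ = 4 * s / (s + |t|) ^ 2 := by rw [div_div_eq_mul_div]; ring

theorem int_sqrt (s : ℝ) (hs : 0 < s) :
    ∫ t in (0:ℝ)..(1/2), 1 / ((s + t) * Real.sqrt (s + t)) ≤ 2 / Real.sqrt s := by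
  have hd : ∀ t ∈ Set.uIcc (0:ℝ) (1/2), HasDerivAt (fun t => -2 / Real.sqrt (s + t))
      (1 / ((s + t) * Real.sqrt (s + t))) t := by
    intro t ht
    rw [Set.uIcc_of_le (by norm_num)] at ht
    have hst : 0 < s + t := by linarith [ht.1]
    have h1 : HasDerivAt (fun t => s + t) 1 t := (hasDerivAt_id t).const_add s
    have h2 := h1.sqrt hst.ne'
    have h3 := (hasDerivAt_const t (-2 : ℝ)).div h2 (Real.sqrt_pos.mpr hst).ne'
    have hsq : Real.sqrt (s + t) ^ 2 = s + t := Real.sq_sqrt hst.le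
    have hp := Real.sqrt_pos.mpr hst
    have heq : (0 * Real.sqrt (s + t) - -2 * (1 / (2 * Real.sqrt (s + t)))) / Real.sqrt (s + t) ^ 2
        = 1 / ((s + t) * Real.sqrt (s + t)) := by
      rw [hsq]
      field_simp
      try ring
    rw [heq] at h3
    exact h3
  have hc : ContinuousOn (fun t => 1 / ((s + t) * Real.sqrt (s + t))) (Set.uIcc (0:ℝ) (1/2)) := by
    rw [Set.uIcc_of_le (by norm_num)]
    intro t ht
    have hst : 0 < s + t := by linarith [ht.1]
    apply ContinuousAt.continuousWithinAt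
    have h1 : ContinuousAt (fun t => (s + t) * Real.sqrt (s + t)) t := by fun_prop
    exact continuousAt_const.div h1 (by positivity)
  rw [intervalIntegral.integral_eq_sub_of_hasDerivAt hd hc.intervalIntegrable]
  have h1 : 0 < Real.sqrt (s + 1 / 2) := Real.sqrt_pos.mpr (by linarith)
  have h2 : 0 ≤ 2 / Real.sqrt (s + 1 / 2) := by positivity
  have e1 : -2 / Real.sqrt (s + 1 / 2) = -(2 / Real.sqrt (s + 1 / 2)) := by ring
  have e2 : -2 / Real.sqrt (s + 0) = -(2 / Real.sqrt s) := by rw [add_zero]; ring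
  rw [e1, e2]
  linarith

theorem int_PK_sqrt (r : ℝ) (hr0 : 0 ≤ r) (hr1 : r < 1) :
    ∫ t in (-(1/2):ℝ)..(1/2), PK r t * Real.sqrt |t| ≤ 16 * Real.sqrt (1 - r) := by
  have hw : ‖(r : ℂ)‖ < 1 := by rw [Complex.norm_real, Real.norm_of_nonneg hr0]; exact hr1
  have hcont : Continuous fun t : ℝ => PK r t * Real.sqrt |t| :=
    (PK_continuous hw).mul (Real.continuous_sqrt.comp continuous_abs)
  rcases le_total (1/2) r with h | h
  · set s := 1 - r with hs
    have hs0 : 0 < s := by linarith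
    -- pointwise bound
    have hpt : ∀ t : ℝ, |t| ≤ 1/2 → PK r t * Real.sqrt |t| ≤
        4 * s * (1 / ((s + |t|) * Real.sqrt (s + |t|))) := by
      intro t ht
      have h1 := PK_bound r t h hr1 ht
      have h2 : Real.sqrt |t| ≤ Real.sqrt (s + |t|) := Real.sqrt_le_sqrt (by linarith)
      have hst : 0 < s + |t| := by positivity
      have hsq : Real.sqrt (s + |t|) ^ 2 = s + |t| := Real.sq_sqrt hst.le
      have hp := Real.sqrt_pos.mpr hst
      calc PK r t * Real.sqrt |t| ≤ 4 * s / (s + |t|) ^ 2 * Real.sqrt (s + |t|) :=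
            mul_le_mul h1 h2 (Real.sqrt_nonneg _) (by positivity)
        _ = 4 * s * (1 / ((s + |t|) * Real.sqrt (s + |t|))) := by
            field_simp
            rw [hsq]
            try ring
    have hc2 : Continuous fun t : ℝ => 4 * s * (1 / ((s + |t|) * Real.sqrt (s + |t|))) := by
      refine continuous_const.mul (continuous_const.div ?_ fun t => ?_)
      · fun_prop
      · have : 0 < s + |t| := by positivity
        positivity
    have hle : ∫ t in (-(1/2):ℝ)..(1/2), PK r t * Real.sqrt |t| ≤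
        ∫ t in (-(1/2):ℝ)..(1/2), 4 * s * (1 / ((s + |t|) * Real.sqrt (s + |t|))) := by
      apply intervalIntegral.integral_mono_on (by norm_num) (hcont.intervalIntegrable _ _)
        (hc2.intervalIntegrable _ _)
      intro t ht
      exact hpt t (abs_le.mpr ht)
    refine hle.trans ?_
    rw [← intervalIntegral.integral_add_adjacent_intervals (b := 0) (hc2.intervalIntegrable _ _)
      (hc2.intervalIntegrable _ _)]
    have hneg : ∫ t in (-(1/2):ℝ)..0, 4 * s * (1 / ((s + |t|) * Real.sqrt (s + |t|))) =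
        ∫ t in (0:ℝ)..(1/2), 4 * s * (1 / ((s + |t|) * Real.sqrt (s + |t|))) := by
      have := intervalIntegral.integral_comp_neg (a := (0:ℝ)) (b := 1/2)
        (fun t => 4 * s * (1 / ((s + |t|) * Real.sqrt (s + |t|))))
      simp only [abs_neg, neg_zero] at this
      exact this.symm
    have hpos : ∫ t in (0:ℝ)..(1/2), 4 * s * (1 / ((s + |t|) * Real.sqrt (s + |t|))) =
        4 * s * ∫ t in (0:ℝ)..(1/2), 1 / ((s + t) * Real.sqrt (s + t)) := by
      rw [← intervalIntegral.integral_const_mul]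
      apply intervalIntegral.integral_congr
      intro t ht
      rw [Set.uIcc_of_le (by norm_num)] at ht
      show 4 * s * (1 / ((s + |t|) * Real.sqrt (s + |t|))) = 4 * s * (1 / ((s + t) * Real.sqrt (s + t)))
      rw [abs_of_nonneg ht.1]
    rw [hneg, hpos]
    have h5 := int_sqrt s hs0
    have hsq : Real.sqrt s ^ 2 = s := Real.sq_sqrt hs0.le
    have hp := Real.sqrt_pos.mpr hs0
    have h6 : 4 * s * (2 / Real.sqrt s) = 8 * Real.sqrt s := by
      rw [mul_div_assoc', div_eq_iff hp.ne']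
      nlinarith
    have h7 := mul_le_mul_of_nonneg_left h5 (by positivity : 0 ≤ 4 * s)
    rw [h6] at h7
    linarith
  · have hone : ∫ t in (-(1/2):ℝ)..(1/2), PK r t = 1 := by
      have := (PK_periodic r).intervalIntegral_add_eq (-(1/2)) 0
      rw [show (-(1/2) : ℝ) + 1 = 1/2 by norm_num, zero_add, int_PK hw] at this
      exact this
    have hle : ∫ t in (-(1/2):ℝ)..(1/2), PK r t * Real.sqrt |t| ≤
        ∫ t in (-(1/2):ℝ)..(1/2), PK r t := by
      apply intervalIntegral.integral_mono_on (by norm_num) (hcont.intervalIntegrable _ _)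
        ((PK_continuous hw).intervalIntegrable _ _)
      intro t ht
      have h1 : Real.sqrt |t| ≤ 1 := by
        have := abs_le.mpr ht
        rw [show (1 : ℝ) = Real.sqrt 1 by simp]
        exact Real.sqrt_le_sqrt (by linarith)
      have := PK_pos hw t
      nlinarith
    rw [hone] at hle
    have h3 : (1/2 : ℝ) ≤ Real.sqrt (1 - r) := by
      apply Real.le_sqrt_of_sq_le
      linarith
    linarith

end H16B

end part4

section part5

open MeasureTheory intervalIntegral Finset Filter Topology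
open scoped Real ComplexConjugate

namespace H16B

theorem V_int (n : ℕ) (a b : ℝ) : IntervalIntegrable (V n) volume a b := by
  have := bdd_intble (V n) (V_measurable n) (n + 1) (V_abs_le n) (fun _ => (1 : ℝ))
    continuous_const a b
  simpa using this

theorem bc_norm_le (n m : ℕ) : ‖bc (V n) m‖ ≤ 2 := by
  unfold bc
  rw [norm_mul]
  have h1 : ‖(if m = 0 then (1 : ℂ) else 2)‖ ≤ 2 := by split_ifs <;> simp
  have h2 : ‖∫ x in (0:ℝ)..1, V n x • (e x) ^ (-(m : ℤ))‖ ≤ 1 := by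
    calc ‖∫ x in (0:ℝ)..1, V n x • (e x) ^ (-(m : ℤ))‖ ≤ ∫ x in (0:ℝ)..1, V n x := by
          refine intervalIntegral.norm_integral_le_of_norm_le zero_le_one ?_ (V_int n 0 1)
          refine Filter.Eventually.of_forall fun x _ => ?_
          rw [norm_smul, norm_zpow, norm_e, one_zpow, mul_one, Real.norm_eq_abs,
            abs_of_nonneg (V_nonneg n x)]
      _ = 1 := int_V n
  nlinarith [norm_nonneg (∫ x in (0:ℝ)..1, V n x • (e x) ^ (-(m : ℤ))),
    norm_nonneg (if m = 0 then (1 : ℂ) else 2)]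

theorem bc_zero (n : ℕ) : bc (V n) 0 = 1 := by
  unfold bc
  simp only [if_true, Nat.cast_zero, neg_zero, zpow_zero, one_mul]
  have h1 : ∀ x : ℝ, V n x • (1 : ℂ) = ((V n x : ℝ) : ℂ) := fun x => by
    rw [Complex.real_smul, mul_one]
  simp_rw [h1]
  rw [intervalIntegral.integral_ofReal, int_V]
  simp

theorem bc_step (n m : ℕ) : dist (bc (V n) m) (bc (V (n + 1)) m) ≤ (π * m) * (1 / 4 : ℝ) ^ n := by
  rw [dist_comm, dist_eq_norm]
  have hP : Continuous fun x : ℝ => (e x) ^ (-(m : ℤ)) :=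
    continuous_e.zpow₀ _ fun x => Or.inl (e_ne_zero x)
  have hper : Function.Periodic (fun x : ℝ => (e x) ^ (-(m : ℤ))) 1 := fun x => by
    show (e (x + 1)) ^ (-(m : ℤ)) = (e x) ^ (-(m : ℤ))
    rw [e_periodic]
  have hb : ∀ x : ℝ, ‖(e x) ^ (-(m : ℤ)) - (e (x + hh n)) ^ (-(m : ℤ))‖ ≤ 2 * π * (m * hh n) := by
    intro x
    rw [e_zpow, e_zpow]
    refine (norm_e_sub _ _).trans (le_of_eq ?_)
    push_cast
    rw [show -(m : ℝ) * x - -(m : ℝ) * (x + hh n) = m * hh n by ring,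
      abs_of_nonneg (by unfold hh; positivity)]
  have h1 := L_step_bound n (fun x : ℝ => (e x) ^ (-(m : ℤ))) hP hper
    (fun _ => 2 * π * (m * hh n)) continuous_const hb
  rw [intervalIntegral.integral_const, sub_zero, one_smul] at h1
  have h2 : bc (V (n + 1)) m - bc (V n) m = (if m = 0 then (1 : ℂ) else 2) *
      (L (n + 1) (fun x : ℝ => (e x) ^ (-(m : ℤ))) - L n (fun x : ℝ => (e x) ^ (-(m : ℤ)))) := by
    unfold bc L
    ring
  rw [h2, norm_mul]
  have h3 : ‖(if m = 0 then (1 : ℂ) else 2)‖ ≤ 2 := by split_ifs <;> simp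
  have h4 : (0 : ℝ) ≤ 2 * π * (m * hh n) := by unfold hh; positivity
  calc _ ≤ 2 * (2 * π * (m * hh n)) := mul_le_mul h3 h1 (norm_nonneg _) (by norm_num)
    _ = (π * m) * (1 / 4 : ℝ) ^ n := by
      unfold hh
      rw [pow_succ, one_div_pow]
      field_simp
      ring

/-- limit coefficients -/
noncomputable def bl (m : ℕ) : ℂ := limUnder atTop (fun n => bc (V n) m)

theorem bl_tendsto (m : ℕ) : Tendsto (fun n => bc (V n) m) atTop (𝓝 (bl m)) := by
  have : CauchySeq fun n => bc (V n) m :=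
    cauchySeq_of_le_geometric (1 / 4) (π * m) (by norm_num) fun n => bc_step n m
  exact this.tendsto_limUnder

theorem bl_norm_le (m : ℕ) : ‖bl m‖ ≤ 2 :=
  le_of_tendsto (bl_tendsto m).norm (Eventually.of_forall fun n => bc_norm_le n m)

theorem bl_zero : bl 0 = 1 := by
  have h1 := bl_tendsto 0
  simp_rw [bc_zero] at h1
  exact tendsto_nhds_unique h1 tendsto_const_nhds

/-- the extremal function -/
noncomputable def ff (w : ℂ) : ℂ := ∑' m, bl m * w ^ m

theorem geo_summable {w : ℂ} (hw : ‖w‖ < 1) : Summable fun m : ℕ => 2 * ‖w‖ ^ m :=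
  (summable_geometric_of_lt_one (norm_nonneg w) hw).mul_left 2

theorem ff_hasSum {w : ℂ} (hw : ‖w‖ < 1) : HasSum (fun m : ℕ => bl m * w ^ m) (ff w) := by
  have : Summable fun m : ℕ => bl m * w ^ m := by
    refine Summable.of_norm_bounded (geo_summable hw) fun m => ?_
    rw [norm_mul, norm_pow]
    exact mul_le_mul_of_nonneg_right (bl_norm_le m) (by positivity)
  exact this.hasSum

theorem ff_tendsto {w : ℂ} (hw : ‖w‖ < 1) :
    Tendsto (fun n => ∫ x in (0:ℝ)..1, V n x • HK w x) atTop (𝓝 (ff w)) := by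
  have h1 : ∀ n, ∫ x in (0:ℝ)..1, V n x • HK w x = ∑' m, bc (V n) m * w ^ m := fun n =>
    (bc_hasSum (V n) (V_measurable n) (n + 1) (V_abs_le n) hw).tsum_eq.symm
  simp_rw [h1]
  refine tendsto_tsum_of_dominated_convergence (bound := fun m : ℕ => 2 * ‖w‖ ^ m)
    (geo_summable hw) (fun m => ?_) (Eventually.of_forall fun n m => ?_)
  · exact (bl_tendsto m).mul_const _
  · rw [norm_mul, norm_pow]
    exact mul_le_mul_of_nonneg_right (bc_norm_le n m) (by positivity)

theorem ff_re_tendsto {w : ℂ} (hw : ‖w‖ < 1) :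
    Tendsto (fun n => L n (PK w)) atTop (𝓝 (ff w).re) := by
  have h1 := (Complex.continuous_re.tendsto _).comp (ff_tendsto hw)
  refine h1.congr fun n => ?_
  exact bc_re (V n) (V_measurable n) (n + 1) (V_abs_le n) hw

theorem ff_diff : DifferentiableOn ℂ ff (Metric.ball 0 1) := by
  intro z hz
  rw [mem_ball_zero_iff] at hz
  set ρ := (1 + ‖z‖) / 2 with hρ
  have h1 : ρ < 1 := by linarith
  have h2 : ‖z‖ < ρ := by linarith
  have h0 : 0 ≤ ρ := by linarith [norm_nonneg z]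
  have h3 : DifferentiableOn ℂ (fun w : ℂ => ∑' m, bl m * w ^ m) (Metric.ball 0 ρ) := by
    refine Complex.differentiableOn_tsum_of_summable_norm (u := fun m : ℕ => 2 * ρ ^ m)
      ((summable_geometric_of_lt_one h0 h1).mul_left 2) (fun m => ?_) Metric.isOpen_ball
      (fun m w hw => ?_)
    · fun_prop
    · rw [mem_ball_zero_iff] at hw
      rw [norm_mul, norm_pow]
      exact mul_le_mul (bl_norm_le m) (pow_le_pow_left₀ (norm_nonneg _) hw.le m) (by positivity)
        (by norm_num)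
  have h4 : z ∈ Metric.ball (0 : ℂ) ρ := by rw [mem_ball_zero_iff]; exact h2
  exact (h3.differentiableAt (Metric.isOpen_ball.mem_nhds h4)).differentiableWithinAt

theorem PK_lower {w : ℂ} (hw : ‖w‖ < 1) (x : ℝ) : (1 - ‖w‖ ^ 2) / (1 + ‖w‖) ^ 2 ≤ PK w x := by
  unfold PK
  have h1 : ‖e x - w‖ ≤ 1 + ‖w‖ := by
    have := norm_sub_le (e x) w
    rwa [norm_e] at this
  have h2 : 0 < ‖e x - w‖ := norm_pos_iff.mpr (sub_ne hw x)
  have h3 : 0 ≤ 1 - ‖w‖ ^ 2 := by nlinarith [norm_nonneg w]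
  gcongr

theorem L_mono (n : ℕ) (P Q : ℝ → ℝ) (hP : Continuous P) (hQ : Continuous Q)
    (h : ∀ x, P x ≤ Q x) : L n P ≤ L n Q := by
  unfold L
  apply intervalIntegral.integral_mono_on zero_le_one
    (bdd_intble _ (V_measurable _) _ (V_abs_le _) P hP 0 1)
    (bdd_intble _ (V_measurable _) _ (V_abs_le _) Q hQ 0 1)
  intro x _
  rw [smul_eq_mul, smul_eq_mul]
  exact mul_le_mul_of_nonneg_left (h x) (V_nonneg n x)

theorem L_const (n : ℕ) (c : ℝ) : L n (fun _ => c) = c := by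
  unfold L
  simp only [smul_eq_mul]
  rw [intervalIntegral.integral_mul_const, int_V, one_mul]

theorem ff_pos {w : ℂ} (hw : ‖w‖ < 1) : 0 < (ff w).re := by
  have hc : 0 < (1 - ‖w‖ ^ 2) / (1 + ‖w‖) ^ 2 := by
    have : 0 < 1 - ‖w‖ ^ 2 := by nlinarith [norm_nonneg w]
    have := norm_nonneg w
    positivity
  have h1 : ∀ n, (1 - ‖w‖ ^ 2) / (1 + ‖w‖) ^ 2 ≤ L n (PK w) := by
    intro n
    have := L_mono n _ _ continuous_const (PK_continuous hw) (PK_lower hw)
    rwa [L_const] at this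
  have h2 := ge_of_tendsto (ff_re_tendsto hw) (Eventually.of_forall h1)
  linarith

/-- fine scales -/
theorem fine {w : ℂ} (hw : ‖w‖ < 1) (k d : ℕ) :
    |L (k + d) (PK w) - L k (PK w)| ≤
      (4 * π / (1 - ‖w‖)) * ((1 / 4 : ℝ) ^ k - (1 / 4 : ℝ) ^ (k + d)) / 3 := by
  have hs : 0 < 1 - ‖w‖ := by linarith
  induction d with
  | zero => simp
  | succ d ih =>
    set n := k + d with hn
    have hQc : Continuous fun x : ℝ => 2 * π * hh n / (1 - ‖w‖) * (PK w x + PK w (x + hh n)) :=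
      continuous_const.mul ((PK_continuous hw).add ((PK_continuous hw).comp (continuous_add_const _)))
    have hb : ∀ x : ℝ, ‖PK w x - PK w (x + hh n)‖ ≤
        2 * π * hh n / (1 - ‖w‖) * (PK w x + PK w (x + hh n)) := by
      intro x
      have := PK_lip hw x (x + hh n)
      rw [show x - (x + hh n) = -hh n by ring, abs_neg,
        abs_of_nonneg (by unfold hh; positivity : 0 ≤ hh n)] at this
      exact this
    have h1 := L_step_bound n (PK w) (PK_continuous hw) (PK_periodic w) _ hQc hb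
    have h2 : ∫ x in (0:ℝ)..1, 2 * π * hh n / (1 - ‖w‖) * (PK w x + PK w (x + hh n)) =
        (4 * π / (1 - ‖w‖)) * hh n := by
      have hi2 : IntervalIntegrable (fun x => PK w (x + hh n)) volume 0 1 :=
        ((PK_continuous hw).comp (continuous_add_const _)).intervalIntegrable 0 1
      rw [intervalIntegral.integral_const_mul, intervalIntegral.integral_add
        ((PK_continuous hw).intervalIntegrable 0 1) hi2, int_PK hw,
        intervalIntegral.integral_comp_add_right (fun x => PK w x)]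
      have := (PK_periodic w).intervalIntegral_add_eq (0 + hh n) 0
      rw [show (0 : ℝ) + hh n + 1 = 1 + hh n by ring, zero_add, zero_add, int_PK hw] at this
      rw [zero_add, this]
      ring
    rw [h2] at h1
    have h3 : (4 * π / (1 - ‖w‖)) * hh n = (4 * π / (1 - ‖w‖)) *
        ((1 / 4 : ℝ) ^ n - (1 / 4 : ℝ) ^ (n + 1)) / 3 := by
      unfold hh
      rw [pow_succ, pow_succ, one_div_pow]
      field_simp
      ring
    rw [h3, Real.norm_eq_abs] at h1
    rw [← add_assoc, ← hn]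
    calc |L (n + 1) (PK w) - L k (PK w)|
        = |(L (n + 1) (PK w) - L n (PK w)) + (L n (PK w) - L k (PK w))| := by ring_nf
      _ ≤ |L (n + 1) (PK w) - L n (PK w)| + |L n (PK w) - L k (PK w)| := abs_add_le _ _
      _ ≤ _ := by
        have := add_le_add h1 ih
        refine this.trans (le_of_eq ?_)
        ring

/-- coarse scales -/
theorem coarse {r x0 : ℝ} (hr0 : 0 ≤ r) (hr1 : r < 1) (k : ℕ) (hk : 1 - r ≤ (1 / 4 : ℝ) ^ k)
    {w : ℂ} (hw1 : ‖w‖ < 1) (hw : ‖w - r * e x0‖ ≤ (1 - r) / 2) :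
    |L k (PK w) - V k x0| ≤ 772 := by
  set z : ℂ := r * e x0 with hz
  have hzn : ‖z‖ = r := by rw [hz, norm_mul, norm_e, Complex.norm_real, Real.norm_of_nonneg hr0, mul_one]
  have hz1 : ‖z‖ < 1 := by rw [hzn]; exact hr1
  have hcw := PK_continuous hw1
  have hcz := PK_continuous hz1
  have hiV := bdd_intble _ (V_measurable k) _ (V_abs_le k) (PK w) hcw
  -- shift the interval
  have hper : Function.Periodic (fun x => V k x • PK w x) 1 := fun x => by
    show V k (x + 1) • PK w (x + 1) = V k x • PK w x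
    rw [V_periodic, PK_periodic]
  have h1 : L k (PK w) = ∫ x in (x0 - 1/2)..(x0 + 1/2), V k x • PK w x := by
    unfold L
    have := hper.intervalIntegral_add_eq (x0 - 1/2) 0
    rw [show x0 - 1/2 + 1 = x0 + 1/2 by ring, zero_add] at this
    exact this.symm
  have h2 : ∫ x in (x0 - 1/2)..(x0 + 1/2), PK w x = 1 := by
    have := (PK_periodic w).intervalIntegral_add_eq (x0 - 1/2) 0
    rw [show x0 - 1/2 + 1 = x0 + 1/2 by ring, zero_add, int_PK hw1] at this
    exact this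
  have h3 : L k (PK w) - V k x0 = ∫ x in (x0 - 1/2)..(x0 + 1/2), (V k x - V k x0) * PK w x := by
    have e1 : ∀ x, (V k x - V k x0) * PK w x = V k x • PK w x - V k x0 * PK w x := fun x => by
      rw [smul_eq_mul]; ring
    simp_rw [e1]
    have hi2 : IntervalIntegrable (fun x => V k x0 * PK w x) volume (x0 - 1/2) (x0 + 1/2) :=
      (continuous_const.mul hcw).intervalIntegrable _ _
    rw [intervalIntegral.integral_sub (hiV _ _) hi2,
      intervalIntegral.integral_const_mul, h2, h1, mul_one]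
  have hcb : Continuous fun x : ℝ => 4 * PK w x +
      48 * 2 ^ k * (PK z x * Real.sqrt |x - x0|) := by
    refine (continuous_const.mul hcw).add (continuous_const.mul (hcz.mul ?_))
    exact Real.continuous_sqrt.comp (continuous_abs.comp (continuous_id.sub continuous_const))
  have h4 : |∫ x in (x0 - 1/2)..(x0 + 1/2), (V k x - V k x0) * PK w x| ≤
      ∫ x in (x0 - 1/2)..(x0 + 1/2), (4 * PK w x + 48 * 2 ^ k * (PK z x * Real.sqrt |x - x0|)) := by
    rw [← Real.norm_eq_abs]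
    have hle : x0 - 1/2 ≤ x0 + 1/2 := by linarith
    refine intervalIntegral.norm_integral_le_of_norm_le hle ?_ (hcb.intervalIntegrable _ _)
    refine Filter.Eventually.of_forall fun x _ => ?_
    rw [Real.norm_eq_abs, abs_mul, abs_of_pos (PK_pos hw1 x)]
    have a1 := V_holder k x x0
    have a2 := PK_compare hz1 (by rw [hzn]; exact hw) x
    have a3 : Real.sqrt (4 ^ k * |x - x0|) = 2 ^ k * Real.sqrt |x - x0| := by
      rw [Real.sqrt_mul (by positivity)]
      congr 1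
      rw [show (4 : ℝ) ^ k = (2 ^ k) ^ 2 by rw [← pow_mul, mul_comm, pow_mul]; norm_num]
      exact Real.sqrt_sq (by positivity)
    rw [a3] at a1
    have a4 := (PK_pos hw1 x)
    have a5 : 0 ≤ 2 ^ k * Real.sqrt |x - x0| := by positivity
    calc |V k x - V k x0| * PK w x ≤ (4 * (1 + 2 ^ k * Real.sqrt |x - x0|)) * PK w x :=
          mul_le_mul_of_nonneg_right a1 a4.le
      _ = 4 * PK w x + 4 * (2 ^ k * Real.sqrt |x - x0|) * PK w x := by ring
      _ ≤ 4 * PK w x + 4 * (2 ^ k * Real.sqrt |x - x0|) * (12 * PK z x) := by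
          have := mul_le_mul_of_nonneg_left a2 (by positivity : 0 ≤ 4 * (2 ^ k * Real.sqrt |x - x0|))
          linarith
      _ = 4 * PK w x + 48 * 2 ^ k * (PK z x * Real.sqrt |x - x0|) := by ring
  have hcs : Continuous fun x : ℝ => PK z x * Real.sqrt |x - x0| :=
    hcz.mul (Real.continuous_sqrt.comp (continuous_abs.comp (continuous_id.sub continuous_const)))
  have h5 : ∫ x in (x0 - 1/2)..(x0 + 1/2), PK z x * Real.sqrt |x - x0| ≤ 16 * Real.sqrt (1 - r) := by
    have := intervalIntegral.integral_comp_add_left (a := -(1/2)) (b := 1/2)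
      (fun x => PK z x * Real.sqrt |x - x0|) x0
    rw [show x0 + -(1/2) = x0 - 1/2 by ring] at this
    rw [← this]
    have e2 : ∀ t : ℝ, PK z (x0 + t) * Real.sqrt |x0 + t - x0| = PK r t * Real.sqrt |t| := by
      intro t
      rw [hz, PK_rot, show x0 + t - x0 = t by ring]
    simp_rw [e2]
    exact int_PK_sqrt r hr0 hr1
  rw [h3]
  refine h4.trans ?_
  have hi3 : IntervalIntegrable (fun x => 4 * PK w x) volume (x0 - 1/2) (x0 + 1/2) :=
    (continuous_const.mul hcw).intervalIntegrable _ _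
  have hi4 : IntervalIntegrable (fun x => 48 * 2 ^ k * (PK z x * Real.sqrt |x - x0|)) volume
      (x0 - 1/2) (x0 + 1/2) := (continuous_const.mul hcs).intervalIntegrable _ _
  rw [intervalIntegral.integral_add hi3 hi4, intervalIntegral.integral_const_mul,
    intervalIntegral.integral_const_mul, h2]
  have h6 : 2 ^ k * Real.sqrt (1 - r) ≤ 1 := by
    have b1 : Real.sqrt (1 - r) ≤ Real.sqrt ((1 / 4 : ℝ) ^ k) := Real.sqrt_le_sqrt hk
    have b2 : Real.sqrt ((1 / 4 : ℝ) ^ k) = (1 / 2) ^ k := by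
      rw [show (1 / 4 : ℝ) ^ k = ((1 / 2) ^ k) ^ 2 by rw [← pow_mul, mul_comm, pow_mul]; norm_num]
      exact Real.sqrt_sq (by positivity)
    rw [b2] at b1
    have b3 : (2 : ℝ) ^ k * (1 / 2) ^ k = 1 := by rw [← mul_pow]; norm_num
    calc (2 : ℝ) ^ k * Real.sqrt (1 - r) ≤ 2 ^ k * (1 / 2) ^ k :=
          mul_le_mul_of_nonneg_left b1 (by positivity)
      _ = 1 := b3
  have h7 : 48 * 2 ^ k * (∫ x in (x0 - 1/2)..(x0 + 1/2), PK z x * Real.sqrt |x - x0|) ≤
      48 * 2 ^ k * (16 * Real.sqrt (1 - r)) := mul_le_mul_of_nonneg_left h5 (by positivity)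
  nlinarith

/-- the real part of `ff` follows the density -/
theorem star {r x0 : ℝ} (hr0 : 0 ≤ r) (hr1 : r < 1) (k : ℕ) (hk : 1 - r ≤ (1 / 4 : ℝ) ^ k)
    (hk2 : (1 / 4 : ℝ) ^ (k + 1) ≤ 1 - r)
    {w : ℂ} (hw : ‖w - r * e x0‖ ≤ (1 - r) / 2) : |(ff w).re - V k x0| ≤ 1000 := by
  have hzn : ‖(r : ℂ) * e x0‖ = r := by
    rw [norm_mul, norm_e, Complex.norm_real, Real.norm_of_nonneg hr0, mul_one]
  have hw1 : ‖w‖ ≤ r + (1 - r) / 2 := by
    have := norm_add_le ((r : ℂ) * e x0) (w - r * e x0)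
    rw [show (r : ℂ) * e x0 + (w - r * e x0) = w by ring, hzn] at this
    linarith
  have hw2 : ‖w‖ < 1 := by linarith
  have hs : (1 - r) / 2 ≤ 1 - ‖w‖ := by linarith
  have hs0 : 0 < (1 - r) / 2 := by linarith
  have h1 : ∀ d : ℕ, |L (k + d) (PK w) - V k x0| ≤ 1000 := by
    intro d
    have a1 := fine hw2 k d
    have a2 := coarse hr0 hr1 k hk hw2 hw
    have a3 : (4 * π / (1 - ‖w‖)) * ((1 / 4 : ℝ) ^ k - (1 / 4 : ℝ) ^ (k + d)) / 3 ≤ 128 / 3 := by
      have b1 : (1 / 4 : ℝ) ^ k - (1 / 4 : ℝ) ^ (k + d) ≤ (1 / 4 : ℝ) ^ k := by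
        have : (0 : ℝ) ≤ (1 / 4 : ℝ) ^ (k + d) := by positivity
        linarith
      have b2 : 4 * π / (1 - ‖w‖) ≤ 16 / ((1 - r) / 2) := by
        have := Real.pi_le_four
        gcongr
        linarith
      have b3 : (1 / 4 : ℝ) ^ k ≤ 4 * (1 - r) := by
        rw [pow_succ] at hk2
        linarith
      have b4 : 0 ≤ 4 * π / (1 - ‖w‖) := by
        have : 0 < 1 - ‖w‖ := by linarith
        positivity
      have b5 : (4 * π / (1 - ‖w‖)) * ((1 / 4 : ℝ) ^ k - (1 / 4 : ℝ) ^ (k + d)) ≤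
          (16 / ((1 - r) / 2)) * (4 * (1 - r)) := by
        calc _ ≤ (4 * π / (1 - ‖w‖)) * (4 * (1 - r)) :=
              mul_le_mul_of_nonneg_left (b1.trans b3) b4
          _ ≤ _ := mul_le_mul_of_nonneg_right b2 (by linarith)
      have b6 : (16 / ((1 - r) / 2)) * (4 * (1 - r)) = 128 := by
        have : (1 - r) ≠ 0 := by linarith
        field_simp
        norm_num
      rw [b6] at b5
      linarith
    calc |L (k + d) (PK w) - V k x0| = |(L (k + d) (PK w) - L k (PK w)) + (L k (PK w) - V k x0)| := by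
          ring_nf
      _ ≤ |L (k + d) (PK w) - L k (PK w)| + |L k (PK w) - V k x0| := abs_add_le _ _
      _ ≤ 1000 := by linarith
  have h2 : Tendsto (fun d => L (k + d) (PK w)) atTop (𝓝 (ff w).re) := by
    have := (ff_re_tendsto hw2).comp (tendsto_add_atTop_nat k)
    refine this.congr fun d => ?_
    simp [add_comm]
  exact le_of_tendsto ((h2.sub_const _).abs) (Eventually.of_forall h1)

end H16B

end part5

section part6

open MeasureTheory intervalIntegral Finset Filter Topology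
open scoped Real ComplexConjugate Nat

namespace H16B

theorem exists_scale {s : ℝ} (hs : 0 < s) (hs1 : s ≤ 1) :
    ∃ k : ℕ, s ≤ (1 / 4 : ℝ) ^ k ∧ (1 / 4 : ℝ) ^ (k + 1) ≤ s := by
  have hex : ∃ k : ℕ, (1 / 4 : ℝ) ^ (k + 1) ≤ s := by
    obtain ⟨k, hk⟩ := exists_pow_lt_of_lt_one hs (by norm_num : (1 / 4 : ℝ) < 1)
    refine ⟨k, le_trans ?_ hk.le⟩
    exact pow_le_pow_of_le_one (by norm_num) (by norm_num) (Nat.le_succ k)
  classical
  refine ⟨Nat.find hex, ?_, Nat.find_spec hex⟩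
  rcases Nat.eq_zero_or_pos (Nat.find hex) with h | h
  · rw [h]; simpa using hs1
  · have := Nat.find_min hex (m := Nat.find hex - 1) (by omega)
    push Not at this
    rw [Nat.sub_add_cancel h] at this
    exact this.le

theorem polar (z : ℂ) : ∃ x0 : ℝ, z = (‖z‖ : ℂ) * e x0 := by
  refine ⟨Complex.arg z / (2 * π), ?_⟩
  have h1 : e (Complex.arg z / (2 * π)) = Complex.exp (Complex.arg z * Complex.I) := by
    rw [e]
    congr 1
    have : (π : ℂ) ≠ 0 := by exact_mod_cast Real.pi_ne_zero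
    push_cast
    field_simp
  rw [h1]
  exact (Complex.norm_mul_exp_arg_mul_I z).symm

theorem ff_bloch {z : ℂ} (hz : ‖z‖ < 1) : (1 - ‖z‖ ^ 2) * ‖deriv ff z‖ ≤ 16008 := by
  set r := ‖z‖ with hr
  have hr0 : 0 ≤ r := norm_nonneg z
  have hs : 0 < 1 - r := by linarith
  obtain ⟨x0, hx0⟩ := polar z
  obtain ⟨k, hk1, hk2⟩ := exists_scale hs (by linarith)
  set ρ := (1 - r) / 2 with hρ
  have hρ0 : 0 < ρ := by linarith
  have hball : Metric.ball z ρ ⊆ Metric.ball 0 1 := by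
    intro w hw
    rw [mem_ball_iff_norm] at hw
    rw [mem_ball_zero_iff]
    have := norm_add_le z (w - z)
    rw [show z + (w - z) = w by ring] at this
    linarith
  have hst : ∀ w ∈ Metric.ball z ρ, |(ff w).re - V k x0| ≤ 1000 := by
    intro w hw
    rw [mem_ball_iff_norm] at hw
    apply star hr0 hz k hk1 hk2
    rw [← hx0]
    exact hw.le
  have hz0 := hst z (Metric.mem_ball_self hρ0)
  have hre : ∀ w ∈ Metric.ball z ρ, (ff w - ff z).re ≤ 2000 := by
    intro w hw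
    have h1 := hst w hw
    rw [abs_le] at h1 hz0
    rw [Complex.sub_re]
    linarith
  -- Schwarz transform
  set M : ℝ := 2001 with hM
  have hden : ∀ w ∈ Metric.ball z ρ, 2 * (M : ℂ) - (ff w - ff z) ≠ 0 := by
    intro w hw h0
    have h1 := hre w hw
    have h2 := congrArg Complex.re h0
    rw [Complex.sub_re (2 * (M : ℂ))] at h2
    simp [hM] at h2
    rw [Complex.sub_re] at h1
    linarith
  set h : ℂ → ℂ := fun w => (ff w - ff z) / (2 * M - (ff w - ff z)) with hh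
  have hffd : DifferentiableOn ℂ ff (Metric.ball z ρ) := ff_diff.mono hball
  have hhd : DifferentiableOn ℂ h (Metric.ball z ρ) := by
    refine DifferentiableOn.div (hffd.sub_const _) ?_ hden
    exact (differentiableOn_const _).sub (hffd.sub_const _)
  have hhz : h z = 0 := by simp [hh]
  have hmaps : Set.MapsTo h (Metric.ball z ρ) (Metric.closedBall (h z) 1) := by
    intro w hw
    rw [hhz, mem_closedBall_zero_iff, hh]
    simp only
    rw [norm_div, div_le_one (norm_pos_iff.mpr (hden w hw))]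
    have h1 := hre w hw
    set g := ff w - ff z
    have h2 : ‖g‖ ^ 2 ≤ ‖2 * (M : ℂ) - g‖ ^ 2 := by
      rw [← Complex.normSq_eq_norm_sq, ← Complex.normSq_eq_norm_sq, Complex.normSq_apply,
        Complex.normSq_apply]
      simp only [Complex.sub_re, Complex.sub_im, Complex.mul_re, Complex.mul_im, Complex.ofReal_re,
        Complex.ofReal_im, Complex.re_ofNat, Complex.im_ofNat, mul_zero, zero_mul, sub_zero,
        add_zero, zero_sub]
      rw [hM]
      nlinarith
    exact le_of_sq_le_sq h2 (norm_nonneg _)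
  have hder := Complex.norm_deriv_le_div_of_mapsTo_ball hhd hmaps hρ0
  have hzmem := Metric.mem_ball_self (x := z) hρ0
  have hfz : DifferentiableAt ℂ ff z := hffd.differentiableAt (Metric.isOpen_ball.mem_nhds hzmem)
  have hderiv : deriv h z = deriv ff z / (2 * M) := by
    have h1 : HasDerivAt (fun w => ff w - ff z) (deriv ff z) z := hfz.hasDerivAt.sub_const _
    have h2 : HasDerivAt (fun w => 2 * (M : ℂ) - (ff w - ff z)) (-deriv ff z) z := by
      have := (hasDerivAt_const z (2 * (M : ℂ))).sub h1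
      rw [zero_sub] at this
      exact this
    have h3 := (h1.div h2 (hden z hzmem)).deriv
    rw [hh]
    have h4 : deriv (fun w => (ff w - ff z) / (2 * M - (ff w - ff z))) z =
        (deriv ff z * (2 * ↑M - (ff z - ff z)) - (ff z - ff z) * -deriv ff z) /
          (2 * ↑M - (ff z - ff z)) ^ 2 := h3
    rw [h4]
    have hM0 : (M : ℂ) ≠ 0 := by rw [hM]; norm_num
    rw [sub_self, sub_zero, zero_mul, sub_zero]
    field_simp
  rw [hderiv, norm_div] at hder
  have hM2 : ‖(2 * (M : ℂ))‖ = 4002 := by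
    rw [hM]
    rw [show (2 * ((2001 : ℝ) : ℂ)) = ((4002 : ℝ) : ℂ) by push_cast; norm_num, Complex.norm_real]
    norm_num
  rw [hM2, div_le_div_iff₀ (by norm_num) hρ0] at hder
  -- ‖f'‖ * ρ ≤ 4002
  have h5 : 1 - r ^ 2 ≤ 4 * ρ := by rw [hρ]; nlinarith
  calc (1 - r ^ 2) * ‖deriv ff z‖ ≤ 4 * ρ * ‖deriv ff z‖ :=
        mul_le_mul_of_nonneg_right h5 (norm_nonneg _)
    _ ≤ 16008 := by linarith

theorem ff_zero : ff 0 = 1 := by
  have h := ff_hasSum (w := 0) (by simp)
  have h2 : ∀ m : ℕ, bl m * (0 : ℂ) ^ m = if m = 0 then 1 else 0 := by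
    intro m
    by_cases hm : m = 0
    · subst hm; simp [bl_zero]
    · simp [hm]
  simp_rw [h2] at h
  exact h.unique (hasSum_ite_eq (0 : ℕ) (1 : ℂ))

theorem ff_InC : InC ff := by
  refine ⟨ff_diff, ff_zero, fun z hz => ff_pos (mem_ball_zero_iff.mp hz), 16008, fun z hz =>
    ff_bloch (mem_ball_zero_iff.mp hz)⟩

/-- Taylor expansion in terms of `coeff` -/
theorem taylor {f : ℂ → ℂ} (hf : DifferentiableOn ℂ f (Metric.ball 0 1)) :
    ∀ z : ℂ, ‖z‖ < 1 → HasSum (fun n => coeff f n * z ^ n) (f z) := by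
  intro z hz
  have h := Complex.hasSum_taylorSeries_on_ball hf (z := z) (by rwa [mem_ball_zero_iff])
  simp only [sub_zero, smul_eq_mul] at h
  have h2 : (fun n : ℕ => coeff f n * z ^ n) = fun n : ℕ => ((n.factorial : ℂ))⁻¹ * (z ^ n * iteratedDeriv n f 0) := by
    funext n
    unfold coeff
    rw [div_eq_mul_inv]
    ring
  rw [h2]
  exact h

theorem deriv_diff {f : ℂ → ℂ} (hf : DifferentiableOn ℂ f (Metric.ball 0 1)) :
    DifferentiableOn ℂ (deriv f) (Metric.ball 0 1) := hf.deriv Metric.isOpen_ball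

theorem coeff_deriv (f : ℂ → ℂ) (n : ℕ) : coeff (deriv f) n = (n + 1) * coeff f (n + 1) := by
  unfold coeff
  rw [← iteratedDeriv_succ', Nat.factorial_succ]
  have h1 : ((n.factorial : ℕ) : ℂ) ≠ 0 := by exact_mod_cast Nat.factorial_ne_zero n
  have h2 : ((n : ℂ) + 1) ≠ 0 := by exact_mod_cast Nat.succ_ne_zero n
  push_cast
  field_simp

theorem deriv_summable {f : ℂ → ℂ} (hf : DifferentiableOn ℂ f (Metric.ball 0 1)) {r : ℝ}
    (hr0 : 0 ≤ r) (hr1 : r < 1) :
    HasSum (fun n : ℕ => ((n : ℝ) + 1) ^ 2 * ‖coeff f (n + 1)‖ ^ 2 * r ^ (2 * n))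
      (∫ x in (0:ℝ)..1, ‖deriv f (r * e x)‖ ^ 2) := by
  have h1 := parseval (taylor (deriv_diff hf)) hr0 hr1
  have h2 : (fun n : ℕ => ‖coeff (deriv f) n‖ ^ 2 * r ^ (2 * n)) =
      fun n : ℕ => ((n : ℝ) + 1) ^ 2 * ‖coeff f (n + 1)‖ ^ 2 * r ^ (2 * n) := by
    funext n
    rw [coeff_deriv, norm_mul, mul_pow]
    congr 2
    rw [show ((n : ℂ) + 1) = ((n + 1 : ℕ) : ℂ) by push_cast; rfl, Complex.norm_natCast]
    push_cast
    rfl
  rw [h2] at h1
  exact h1

/-- tail bound from the Bloch condition -/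
theorem tail_bound {f : ℂ → ℂ} (hf : DifferentiableOn ℂ f (Metric.ball 0 1)) (K : ℝ)
    (hK : ∀ z ∈ Metric.ball (0 : ℂ) 1, (1 - ‖z‖ ^ 2) * ‖deriv f z‖ ≤ K) {r : ℝ} (hr0 : 0 ≤ r)
    (hr1 : r < 1) :
    ∑' n : ℕ, ((n : ℝ) + 1) ^ 2 * ‖coeff f (n + 1)‖ ^ 2 * r ^ (2 * n) ≤ (K / (1 - r)) ^ 2 := by
  rw [(deriv_summable hf hr0 hr1).tsum_eq]
  have hc : Continuous fun x : ℝ => ‖deriv f (r * e x)‖ ^ 2 :=
    ((cont_circle (taylor (deriv_diff hf)) hr0 hr1).norm).pow 2
  calc ∫ x in (0:ℝ)..1, ‖deriv f (r * e x)‖ ^ 2 ≤ ∫ x in (0:ℝ)..1, (K / (1 - r)) ^ 2 := by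
        apply intervalIntegral.integral_mono_on zero_le_one (hc.intervalIntegrable 0 1)
          intervalIntegrable_const
        intro x _
        apply pow_le_pow_left₀ (norm_nonneg _)
        have hn : ‖(r : ℂ) * e x‖ = r := by
          rw [norm_mul, norm_e, Complex.norm_real, Real.norm_of_nonneg hr0, mul_one]
        have := hK (r * e x) (by rw [mem_ball_zero_iff, hn]; exact hr1)
        rw [hn] at this
        rw [le_div_iff₀ (by linarith)]
        have h3 : 1 - r ≤ 1 - r ^ 2 := by nlinarith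
        calc ‖deriv f (r * e x)‖ * (1 - r) ≤ ‖deriv f (r * e x)‖ * (1 - r ^ 2) :=
              mul_le_mul_of_nonneg_left h3 (norm_nonneg _)
          _ ≤ K := by linarith
    _ = (K / (1 - r)) ^ 2 := by simp

theorem S_mono (f : ℂ → ℂ) {M N : ℕ} (h : M ≤ N) : S f M ≤ S f N := by
  unfold S
  exact sum_le_sum_of_subset_of_nonneg (Icc_subset_Icc_right h) fun _ _ _ => by positivity

theorem tail_aux {f : ℂ → ℂ} {r : ℝ} (hr0 : 0 ≤ r) (hr1 : r < 1) (N : ℕ) (hN0 : 0 < N) (i : ℕ) :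
    ‖coeff f (i + (N + 1))‖ ^ 2 * r ^ (2 * (i + (N + 1))) ≤
        (1 / (N : ℝ) ^ 2) * ((((i + N : ℕ) : ℝ) + 1) ^ 2 * ‖coeff f (i + N + 1)‖ ^ 2 *
        r ^ (2 * (i + N))) := by
  have hNr : (0 : ℝ) < N := by exact_mod_cast hN0
  have e0 : i + (N + 1) = i + N + 1 := rfl
  rw [e0]
  have e1 : r ^ (2 * (i + N + 1)) = r ^ 2 * r ^ (2 * (i + N)) := by
    rw [← pow_add]; congr 1; ring
  rw [e1]
  have e2 : r ^ 2 ≤ 1 := pow_le_one₀ hr0 hr1.le
  have e3 : (1 : ℝ) ≤ (1 / (N : ℝ) ^ 2) * (((i + N : ℕ) : ℝ) + 1) ^ 2 := by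
    rw [one_div, inv_mul_eq_div, le_div_iff₀ (by positivity), one_mul]
    push_cast
    have : (0 : ℝ) ≤ i := Nat.cast_nonneg i
    exact pow_le_pow_left₀ hNr.le (by linarith) 2
  have e5 : 0 ≤ ‖coeff f (i + N + 1)‖ ^ 2 := by positivity
  have e6 : 0 ≤ r ^ (2 * (i + N)) := by positivity
  generalize ‖coeff f (i + N + 1)‖ ^ 2 = c at e5 ⊢
  generalize r ^ (2 * (i + N)) = t at e6 ⊢
  generalize r ^ 2 = u at e2 ⊢
  have e4 : 0 ≤ c * t := mul_nonneg e5 e6
  calc c * (u * t) = u * (c * t) := by ring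
    _ ≤ 1 * (c * t) := mul_le_mul_of_nonneg_right e2 e4
    _ ≤ ((1 / (N : ℝ) ^ 2) * (((i + N : ℕ) : ℝ) + 1) ^ 2) * (c * t) :=
      mul_le_mul_of_nonneg_right e3 e4
    _ = _ := by ring

theorem tail_generic (a d : ℕ → ℝ) (ha : Summable a) (hd : Summable d) (hd0 : ∀ n, 0 ≤ d n)
    (N : ℕ) (c : ℝ) (hc : 0 ≤ c) (h : ∀ i, a (i + (N + 1)) ≤ c * d (i + N)) :
    ∑' i, a (i + (N + 1)) ≤ c * ∑' i, d i := by
  have h1 : Summable fun i => a (i + (N + 1)) := (summable_nat_add_iff (f := a) (N + 1)).mpr ha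
  have h2 : Summable fun i => d (i + N) := (summable_nat_add_iff (f := d) N).mpr hd
  have h3 := h1.tsum_le_tsum h (h2.mul_left c)
  rw [tsum_mul_left] at h3
  have h4 := hd.sum_add_tsum_nat_add N
  have h5 : 0 ≤ ∑ i ∈ range N, d i := sum_nonneg fun i _ => hd0 i
  have h6 : c * ∑' i, d (i + N) ≤ c * ∑' i, d i := mul_le_mul_of_nonneg_left (by linarith) hc
  linarith

/-- general: mean square at radius `r` is at most `1 + S_N + tail` -/
theorem mean_le {f : ℂ → ℂ} (hf : DifferentiableOn ℂ f (Metric.ball 0 1)) (h0 : f 0 = 1) (K : ℝ)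
    (hK : ∀ z ∈ Metric.ball (0 : ℂ) 1, (1 - ‖z‖ ^ 2) * ‖deriv f z‖ ≤ K) {r : ℝ} (hr0 : 0 ≤ r)
    (hr1 : r < 1) (N : ℕ) (hN : 1 ≤ N * (1 - r)) :
    ∫ x in (0:ℝ)..1, ‖f (r * e x)‖ ^ 2 ≤ 1 + S f N + K ^ 2 := by
  have h1 := parseval (taylor hf) hr0 hr1
  have hN0 : 0 < N := by
    rcases Nat.eq_zero_or_pos N with h | h
    · rw [h] at hN; norm_num at hN
    · exact h
  have hNr : (0 : ℝ) < N := by exact_mod_cast hN0
  rw [← h1.tsum_eq, ← h1.summable.sum_add_tsum_nat_add (N + 1)]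
  have hc0 : ‖coeff f 0‖ ^ 2 * r ^ (2 * 0) = 1 := by
    unfold coeff
    simp [h0]
  have hfin : ∑ i ∈ range (N + 1), ‖coeff f i‖ ^ 2 * r ^ (2 * i) ≤ 1 + S f N := by
    rw [sum_range_succ', hc0, add_comm]
    have hS : S f N = ∑ i ∈ range N, ‖coeff f (i + 1)‖ ^ 2 := by
      unfold S
      rw [show Finset.Icc 1 N = Finset.Ico 1 (N + 1) by ext; simp,
        Finset.sum_Ico_eq_sum_range]
      rw [Nat.add_sub_cancel]
      exact sum_congr rfl fun i _ => by rw [add_comm]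
    rw [hS]
    gcongr with i hi
    have : r ^ (2 * (i + 1)) ≤ 1 := pow_le_one₀ hr0 hr1.le
    have h2 : 0 ≤ ‖coeff f (i + 1)‖ ^ 2 := by positivity
    nlinarith
  have hD := deriv_summable hf hr0 hr1
  have hT := tail_bound hf K hK hr0 hr1
  have htail := tail_generic _ _ h1.summable hD.summable (fun n => by positivity) N
    (1 / (N : ℝ) ^ 2) (by positivity) (fun i => tail_aux hr0 hr1 N hN0 i)
  have h5 : (1 / (N : ℝ) ^ 2) * (K / (1 - r)) ^ 2 ≤ K ^ 2 := by
    have e1 : (1 / (N : ℝ) ^ 2) * (K / (1 - r)) ^ 2 = K ^ 2 / (N * (1 - r)) ^ 2 := by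
      have : (1 - r) ≠ 0 := by linarith
      field_simp
    rw [e1]
    apply div_le_self (by positivity)
    nlinarith
  have h6 := mul_le_mul_of_nonneg_left hT (by positivity : 0 ≤ 1 / (N : ℝ) ^ 2)
  linarith

theorem ff_S_lower (k : ℕ) (hk : 1 ≤ k) : Real.sqrt (k + 1) - (2001 + 16008 ^ 2) ≤ S ff (4 ^ k) := by
  set r : ℝ := 1 - (1 / 4) ^ k with hr
  have hpos : (0 : ℝ) < (1 / 4) ^ k := by positivity
  have hle1 : ((1 : ℝ) / 4) ^ k ≤ 1 := pow_le_one₀ (by norm_num) (by norm_num)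
  have hr0 : 0 ≤ r := by linarith
  have hr1 : r < 1 := by linarith
  have hN : (1 : ℝ) ≤ ((4 ^ k : ℕ) : ℝ) * (1 - r) := by
    rw [hr]
    push_cast
    have : (4 : ℝ) ^ k * (1 / 4) ^ k = 1 := by rw [← mul_pow]; norm_num
    rw [sub_sub_cancel, this]
  have h1 := mean_le ff_diff ff_zero 16008 (fun z hz => ff_bloch (mem_ball_zero_iff.mp hz)) hr0 hr1
    (4 ^ k) hN
  have hst : ∀ x : ℝ, |(ff (r * e x)).re - V k x| ≤ 1000 := by
    intro x
    apply star hr0 hr1 k
    · rw [hr, sub_sub_cancel]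
    · rw [hr, sub_sub_cancel]
      exact pow_le_pow_of_le_one (by norm_num) (by norm_num) (Nat.le_succ k)
    · rw [sub_self, norm_zero]; linarith
  have hpt : ∀ x : ℝ, V k x ^ 2 - 2000 * V k x ≤ ‖ff (r * e x)‖ ^ 2 := by
    intro x
    have a1 := hst x
    have a2 := V_nonneg k x
    have a3 : (ff (r * e x)).re ^ 2 ≤ ‖ff (r * e x)‖ ^ 2 := by
      rw [← Complex.normSq_eq_norm_sq, Complex.normSq_apply]
      nlinarith [sq_nonneg (ff (r * e x)).im]
    rw [abs_le] at a1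
    refine le_trans ?_ a3
    rcases le_total (V k x) 1000 with h | h
    · nlinarith [sq_nonneg (ff (r * e x)).re]
    · have : V k x - 1000 ≤ (ff (r * e x)).re := by linarith
      nlinarith
  have hint : IntervalIntegrable (fun x => V k x ^ 2) volume 0 1 := by
    have := bdd_intble (fun x => V k x ^ 2) ((V_measurable k).pow_const 2) ((k + 1) ^ 2) (fun x => by
      rw [abs_pow]
      exact pow_le_pow_left₀ (abs_nonneg _) (V_abs_le k x) 2) (fun _ => (1 : ℝ)) continuous_const 0 1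
    simpa using this
  have hc : Continuous fun x : ℝ => ‖ff (r * e x)‖ ^ 2 :=
    ((cont_circle (taylor ff_diff) hr0 hr1).norm).pow 2
  have h2 : ∫ x in (0:ℝ)..1, (V k x ^ 2 - 2000 * V k x) ≤ ∫ x in (0:ℝ)..1, ‖ff (r * e x)‖ ^ 2 :=
    intervalIntegral.integral_mono_on zero_le_one (hint.sub ((V_int k 0 1).const_mul _))
      (hc.intervalIntegrable 0 1) fun x _ => hpt x
  rw [intervalIntegral.integral_sub hint ((V_int k 0 1).const_mul _),
    intervalIntegral.integral_const_mul, int_V, int_V_sq] at h2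
  have h3 := E_sqrt k
  linarith

theorem exists_sharp : ∃ f : ℂ → ℂ, InC f ∧
    ∃ c : ℝ, 0 < c ∧ ∀ᶠ N : ℕ in atTop, c * Real.sqrt (Real.log N) ≤ S f N := by
  refine ⟨ff, ff_InC, 1 / 4, by norm_num, ?_⟩
  set D : ℝ := 2001 + 16008 ^ 2 with hD
  have hlim : Tendsto (fun N : ℕ => Real.sqrt (Real.log N)) atTop atTop :=
    Real.tendsto_sqrt_atTop.comp (Real.tendsto_log_atTop.comp tendsto_natCast_atTop_atTop)
  filter_upwards [hlim.eventually_ge_atTop (4 * D), eventually_ge_atTop 4] with N h1 h4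
  set k := Nat.log 4 N with hk
  have hk1 : 1 ≤ k := by
    rw [hk]
    exact Nat.log_pos (by norm_num) h4
  have hN1 : 4 ^ k ≤ N := Nat.pow_log_le_self 4 (by omega)
  have hN2 : N < 4 ^ (k + 1) := Nat.lt_pow_succ_log_self (by norm_num) N
  have h2 := ff_S_lower k hk1
  have h3 := S_mono ff hN1
  have hlog : Real.log N ≤ (k + 1) * 4 := by
    have a1 : Real.log N ≤ Real.log ((4 : ℝ) ^ (k + 1)) := by
      apply Real.log_le_log (by positivity)
      exact_mod_cast hN2.le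
    rw [Real.log_pow] at a1
    have a2 : Real.log 4 ≤ 4 := by
      have := Real.log_le_sub_one_of_pos (by norm_num : (0 : ℝ) < 4)
      linarith
    push_cast at a1
    have a3 : (0 : ℝ) ≤ k + 1 := by positivity
    nlinarith
  have hsq : Real.sqrt (Real.log N) ≤ 2 * Real.sqrt (k + 1) := by
    have a1 : Real.sqrt (Real.log N) ≤ Real.sqrt ((k + 1) * 4) := Real.sqrt_le_sqrt hlog
    rw [Real.sqrt_mul (by positivity), show (4 : ℝ) = 2 ^ 2 by norm_num,
      Real.sqrt_sq (by norm_num)] at a1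
    linarith
  linarith

end H16B

end part6

section part7

open Complex MeasureTheory intervalIntegral
open scoped Real ComplexConjugate Topology

namespace H72Up

theorem taylor {g : ℂ → ℂ} (hg : DifferentiableOn ℂ g (Metric.ball 0 1)) :
    ∀ z : ℂ, ‖z‖ < 1 → HasSum (fun n => coeff g n * z ^ n) (g z) := by
  intro z hz
  have h := Complex.hasSum_taylorSeries_on_ball hg (z := z) (by simpa using hz)
  have h2 : (fun n : ℕ => coeff g n * z ^ n) =
      fun n : ℕ => (↑n.factorial : ℂ)⁻¹ • (z - 0) ^ n • iteratedDeriv n g 0 := by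
    ext n
    simp only [coeff, smul_eq_mul, sub_zero]
    ring
  rw [h2]; exact h

theorem taylor_deriv {g : ℂ → ℂ} (hg : DifferentiableOn ℂ g (Metric.ball 0 1)) :
    ∀ z : ℂ, ‖z‖ < 1 → HasSum (fun n : ℕ => (((n : ℂ) + 1) * coeff g (n + 1)) * z ^ n) (deriv g z) := by
  intro z hz
  have h := taylor (hg.deriv Metric.isOpen_ball) z hz
  have h2 : ∀ n : ℕ, coeff (deriv g) n = ((n : ℂ) + 1) * coeff g (n + 1) := by
    intro n
    unfold coeff
    rw [iteratedDeriv_succ', Nat.factorial_succ]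
    have : ((n : ℂ) + 1) ≠ 0 := by exact_mod_cast Nat.succ_ne_zero n
    have h3 : ((n.factorial : ℂ)) ≠ 0 := by exact_mod_cast n.factorial_ne_zero
    push_cast
    field_simp
  simpa only [h2] using h

theorem ptwise {A B u D E R : ℝ} (hA : 0 < A) (hu : 0 < u) (hR : 0 < R)
    (hD : R * D ≤ B) (hD0 : 0 ≤ D) (hE : E = D / A * Real.exp (-u / A)) :
    D ^ 2 ≤ Real.exp 1 ^ 2 * A ^ 2 * E ^ 2 + B ^ 2 / (A * R ^ 2) * u := by
  have hB : 0 ≤ B := le_trans (by positivity) hD
  rcases le_or_gt u A with h | h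
  · have h1 : 1 ≤ Real.exp 1 * Real.exp (-u / A) := by
      rw [← Real.exp_add]
      apply Real.one_le_exp
      have : u / A ≤ 1 := (div_le_one hA).2 h
      rw [neg_div]; linarith
    have h2 : Real.exp 1 ^ 2 * A ^ 2 * E ^ 2 = D ^ 2 * (Real.exp 1 * Real.exp (-u / A)) ^ 2 := by
      rw [hE]; field_simp
    rw [h2]
    have h3 : 1 ≤ (Real.exp 1 * Real.exp (-u / A)) ^ 2 := one_le_pow₀ h1
    have h4 : 0 ≤ B ^ 2 / (A * R ^ 2) * u := by positivity
    nlinarith [sq_nonneg D]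
  · have h1 : D ≤ B / R := by rw [le_div_iff₀ hR]; linarith
    have h2 : D ^ 2 ≤ (B / R) ^ 2 := pow_le_pow_left₀ hD0 h1 2
    have h3 : B ^ 2 / (A * R ^ 2) * u = (B / R) ^ 2 * (u / A) := by field_simp
    have h4 : 1 ≤ u / A := (one_le_div hA).2 h.le
    have h5 : 0 ≤ Real.exp 1 ^ 2 * A ^ 2 * E ^ 2 := by positivity
    rw [h3]
    nlinarith [sq_nonneg (B / R)]

end H72Up

namespace H72Up

theorem int_weight (ρ : ℝ) (n : ℕ) :
    ∫ s in (0:ℝ)..ρ, (1 - s) * s ^ n = ρ ^ (n+1) / (n+1) - ρ ^ (n+2) / (n+2) := by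
  have h : ∀ s : ℝ, (1 - s) * s ^ n = s ^ n - s ^ (n+1) := fun s => by ring
  simp_rw [h]
  rw [intervalIntegral.integral_sub (by apply Continuous.intervalIntegrable; fun_prop)
    (by apply Continuous.intervalIntegrable; fun_prop), integral_pow, integral_pow]
  push_cast
  simp
  ring

theorem int_weight_le {ρ : ℝ} (hρ0 : 0 ≤ ρ) (hρ1 : ρ < 1) (n : ℕ) :
    ∫ s in (0:ℝ)..ρ, (1 - s) * s ^ n ≤ 1 / ((n+1) * (n+2)) := by
  have h1 : ∫ s in (0:ℝ)..1, (1 - s) * s ^ n = 1 / ((n+1) * (n+2)) := by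
    rw [int_weight]
    field_simp
    ring
  rw [← h1]
  apply intervalIntegral.integral_mono_interval le_rfl hρ0 hρ1.le
  · rw [Filter.EventuallyLE, ae_restrict_iff' measurableSet_Ioc]
    refine Filter.Eventually.of_forall fun s hs => ?_
    exact mul_nonneg (by linarith [hs.2]) (pow_nonneg hs.1.le _)
  · apply Continuous.intervalIntegrable; fun_prop

theorem le_int_weight {ρ : ℝ} (hρ0 : 0 ≤ ρ) (hρ1 : ρ < 1) (n : ℕ) :
    ρ ^ (n+1) / ((n+1) * (n+2)) ≤ ∫ s in (0:ℝ)..ρ, (1 - s) * s ^ n := by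
  rw [int_weight]
  have h : ρ ^ (n+1) / ((n+1) * (n+2)) = ρ ^ (n+1) / (n+1) - ρ ^ (n+1) / (n+2) := by
    field_simp
    ring
  rw [h]
  have h2 : ρ ^ (n+2) ≤ ρ ^ (n+1) := pow_le_pow_of_le_one hρ0 hρ1.le (by omega)
  have h3 : ρ ^ (n+2) / ((n:ℝ)+2) ≤ ρ ^ (n+1) / (n+2) := by gcongr
  linarith

theorem int_log {ρ : ℝ} (hρ1 : ρ < 1) :
    ∫ s in (0:ℝ)..ρ, (1 - s)⁻¹ = Real.log (1 / (1 - ρ)) := by
  rw [intervalIntegral.integral_comp_sub_left (fun x => x⁻¹) 1]
  rw [integral_inv_of_pos (by linarith) (by norm_num)]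
  simp

theorem integ {c d : ℕ → ℝ} (hd : ∀ n, 0 ≤ d n) (hc : ∀ n, 0 ≤ c n) {N : ℕ} {ρ Dc E : ℝ}
    (hρ0 : 0 ≤ ρ) (hρ1 : ρ < 1)
    (hsum : Summable fun n => d n * ρ ^ n)
    (hineq : ∀ s ∈ Set.Icc 0 ρ, ∑ n ∈ Finset.range N, c n * s ^ n ≤
      ∑' n, d n * s ^ n + Dc / (1 - s) ^ 2)
    (hE : ∀ M, ∑ n ∈ Finset.range M, d n / ((n+1) * (n+2)) ≤ E) :
    ∑ n ∈ Finset.range N, c n * ρ ^ (n+1) / ((n+1)*(n+2)) ≤ E + Dc * Real.log (1 / (1 - ρ)) := by
  have hcont : ContinuousOn (fun s => ∑' n, d n * s ^ n) (Set.Icc 0 ρ) := by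
    refine continuousOn_tsum (u := fun n => d n * ρ ^ n) (fun n => by fun_prop) hsum ?_
    intro n x hx
    rw [Real.norm_of_nonneg (mul_nonneg (hd n) (pow_nonneg hx.1 _))]
    exact mul_le_mul_of_nonneg_left (pow_le_pow_left₀ hx.1 hx.2 n) (hd n)
  have hcont2 : ContinuousOn (fun s : ℝ => (1 - s)⁻¹) (Set.Icc 0 ρ) := by
    apply ContinuousOn.inv₀ (by fun_prop)
    intro x hx
    have := hx.2
    linarith
  have hI1 : IntervalIntegrable (fun s => (1 - s) * ∑' n, d n * s ^ n) volume 0 ρ := by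
    apply ContinuousOn.intervalIntegrable
    rw [Set.uIcc_of_le hρ0]
    exact ContinuousOn.mul (by fun_prop) hcont
  have hI2 : IntervalIntegrable (fun s : ℝ => Dc * (1 - s)⁻¹) volume 0 ρ := by
    apply ContinuousOn.intervalIntegrable
    rw [Set.uIcc_of_le hρ0]
    exact ContinuousOn.mul (by fun_prop) hcont2
  have hmain : ∫ s in (0:ℝ)..ρ, (1 - s) * ∑ n ∈ Finset.range N, c n * s ^ n ≤
      ∫ s in (0:ℝ)..ρ, ((1 - s) * (∑' n, d n * s ^ n) + Dc * (1 - s)⁻¹) := by
    apply intervalIntegral.integral_mono_on hρ0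
    · apply Continuous.intervalIntegrable; fun_prop
    · exact hI1.add hI2
    · intro s hs
      have h1 := hineq s hs
      have h2 : 0 < 1 - s := by linarith [hs.2]
      calc (1 - s) * ∑ n ∈ Finset.range N, c n * s ^ n
          ≤ (1 - s) * (∑' n, d n * s ^ n + Dc / (1 - s) ^ 2) :=
            mul_le_mul_of_nonneg_left h1 h2.le
        _ = _ := by field_simp
  rw [intervalIntegral.integral_add hI1 hI2, intervalIntegral.integral_const_mul, int_log hρ1] at hmain
  have hL : ∫ s in (0:ℝ)..ρ, (1 - s) * ∑ n ∈ Finset.range N, c n * s ^ n =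
      ∑ n ∈ Finset.range N, c n * ∫ s in (0:ℝ)..ρ, (1 - s) * s ^ n := by
    simp_rw [Finset.mul_sum]
    rw [intervalIntegral.integral_finsetSum]
    · refine Finset.sum_congr rfl fun n _ => ?_
      rw [← intervalIntegral.integral_const_mul]
      congr 1; ext s; ring
    · intro n _
      apply Continuous.intervalIntegrable; fun_prop
  have hS : HasSum (fun n => ∫ s in (0:ℝ)..ρ, (1 - s) * (d n * s ^ n))
      (∫ s in (0:ℝ)..ρ, (1 - s) * ∑' n, d n * s ^ n) := by
    refine intervalIntegral.hasSum_integral_of_dominated_convergence (fun n _ => d n * ρ ^ n)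
      ?_ ?_ ?_ ?_ ?_
    · intro n
      exact Continuous.aestronglyMeasurable (by fun_prop)
    · intro n
      refine Filter.Eventually.of_forall fun s hs => ?_
      rw [Set.uIoc_of_le hρ0] at hs
      have h0 : 0 ≤ s := hs.1.le
      have h1 : 0 ≤ 1 - s := by linarith [hs.2]
      have h2 : 0 ≤ d n * s ^ n := mul_nonneg (hd n) (pow_nonneg h0 _)
      rw [Real.norm_of_nonneg (mul_nonneg h1 h2)]
      calc (1 - s) * (d n * s ^ n) ≤ 1 * (d n * s ^ n) :=
            mul_le_mul_of_nonneg_right (by linarith) h2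
        _ ≤ d n * ρ ^ n := by
            rw [one_mul]; exact mul_le_mul_of_nonneg_left (pow_le_pow_left₀ h0 hs.2 n) (hd n)
    · exact Filter.Eventually.of_forall fun s _ => hsum
    · exact intervalIntegrable_const
    · refine Filter.Eventually.of_forall fun s hs => ?_
      rw [Set.uIoc_of_le hρ0] at hs
      have h0 : 0 ≤ s := hs.1.le
      refine HasSum.mul_left _ (Summable.hasSum ?_)
      refine Summable.of_nonneg_of_le (fun n => mul_nonneg (hd n) (pow_nonneg h0 _)) (fun n => ?_) hsum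
      exact mul_le_mul_of_nonneg_left (pow_le_pow_left₀ h0 hs.2 n) (hd n)
  have hR : ∫ s in (0:ℝ)..ρ, (1 - s) * ∑' n, d n * s ^ n ≤ E := by
    refine le_of_tendsto' hS.tendsto_sum_nat fun M => ?_
    refine le_trans (Finset.sum_le_sum fun n _ => ?_) (hE M)
    have h1 : ∫ s in (0:ℝ)..ρ, (1 - s) * (d n * s ^ n) =
        d n * ∫ s in (0:ℝ)..ρ, (1 - s) * s ^ n := by
      rw [← intervalIntegral.integral_const_mul]
      congr 1; ext s; ring
    rw [h1, div_eq_mul_one_div]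
    exact mul_le_mul_of_nonneg_left (int_weight_le hρ0 hρ1 n) (hd n)
  rw [hL] at hmain
  refine le_trans (Finset.sum_le_sum fun n _ => ?_) (hmain.trans (by linarith))
  rw [mul_div_assoc]
  exact mul_le_mul_of_nonneg_left (le_int_weight hρ0 hρ1 n) (hc n)

end H72Up

namespace H72Up

theorem bound_h {h : ℂ → ℂ} (hh : DifferentiableOn ℂ h (Metric.ball 0 1))
    (hb : ∀ z : ℂ, ‖z‖ < 1 → ‖h z‖ ≤ 1) (M : ℕ) :
    ∑ n ∈ Finset.range M, ‖coeff h n‖ ^ 2 ≤ 1 := by
  have h1 : ∀ r : ℝ, 0 ≤ r → r < 1 → ∑ n ∈ Finset.range M, ‖coeff h n‖ ^ 2 * r ^ (2 * n) ≤ 1 := by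
    intro r hr hr1
    have hp := H16B.parseval (taylor hh) hr hr1
    have hc := H16B.cont_circle (taylor hh) hr hr1
    calc ∑ n ∈ Finset.range M, ‖coeff h n‖ ^ 2 * r ^ (2 * n)
        ≤ ∫ x in (0:ℝ)..1, ‖h (r * H16B.e x)‖ ^ 2 :=
          sum_le_hasSum _ (fun n _ => by positivity) hp
      _ ≤ ∫ x in (0:ℝ)..1, (1:ℝ) := by
          apply intervalIntegral.integral_mono_on zero_le_one
          · exact (hc.norm.pow 2).intervalIntegrable _ _
          · exact intervalIntegrable_const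
          · intro x _
            have := hb (r * H16B.e x) (by rw [H16B.norm_re (taylor hh) r hr]; exact hr1)
            exact pow_le_one₀ (norm_nonneg _) this
      _ = 1 := by simp
  have h2 : Filter.Tendsto (fun r : ℝ => ∑ n ∈ Finset.range M, ‖coeff h n‖ ^ 2 * r ^ (2 * n))
      (𝓝[<] 1) (𝓝 (∑ n ∈ Finset.range M, ‖coeff h n‖ ^ 2 * (1:ℝ) ^ (2 * n))) := by
    apply Filter.Tendsto.mono_left _ nhdsWithin_le_nhds
    apply Continuous.tendsto
    fun_prop
  have h3 := le_of_tendsto h2 (b := 1) ?_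
  · simpa using h3
  · have : Set.Ioo (0:ℝ) 1 ∈ 𝓝[<] (1:ℝ) := Ioo_mem_nhdsLT (by norm_num)
    filter_upwards [this] with r hr
    exact h1 r hr.1.le hr.2

theorem int_re {f : ℂ → ℂ} (hf : DifferentiableOn ℂ f (Metric.ball 0 1)) (h0 : f 0 = 1)
    {r : ℝ} (hr : 0 ≤ r) (hr1 : r < 1) :
    ∫ x in (0:ℝ)..1, (f (r * H16B.e x)).re = 1 := by
  have h1 := H16B.coeff_integral (taylor hf) hr hr1 0
  have hc := H16B.cont_circle (taylor hf) hr hr1
  have h2 : ∫ x in (0:ℝ)..1, f (r * H16B.e x) = 1 := by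
    simpa [coeff, h0] using h1
  have h3 := Complex.reCLM.intervalIntegral_comp_comm (μ := volume) (a := 0) (b := 1)
    (hc.intervalIntegrable (μ := volume) 0 1)
  simp only [Complex.reCLM_apply] at h3
  rw [h3, h2]
  simp

theorem circle_ineq {f : ℂ → ℂ} (hd : DifferentiableOn ℂ f (Metric.ball 0 1)) (h0 : f 0 = 1)
    (hpos : ∀ z ∈ Metric.ball (0:ℂ) 1, 0 < (f z).re) {K : ℝ}
    (hK : ∀ z ∈ Metric.ball (0:ℂ) 1, (1 - ‖z‖^2) * ‖deriv f z‖ ≤ K)
    {A : ℝ} (hA : 0 < A) {h : ℂ → ℂ} (hdef : h = fun z => Complex.exp (-(f z) / A))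
    (hh : DifferentiableOn ℂ h (Metric.ball 0 1))
    {r : ℝ} (hr : 0 ≤ r) (hr1 : r < 1) (N : ℕ) :
    ∑ n ∈ Finset.range N, ‖((n : ℂ) + 1) * coeff f (n + 1)‖ ^ 2 * r ^ (2 * n) ≤
      Real.exp 1 ^ 2 * A ^ 2 * ∑' n : ℕ, ‖((n : ℂ) + 1) * coeff h (n + 1)‖ ^ 2 * r ^ (2 * n) +
        K ^ 2 / (A * (1 - r ^ 2) ^ 2) := by
  have hpf := H16B.parseval (taylor_deriv hd) hr hr1
  have hph := H16B.parseval (taylor_deriv hh) hr hr1
  have hcf := H16B.cont_circle (taylor_deriv hd) hr hr1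
  have hch := H16B.cont_circle (taylor_deriv hh) hr hr1
  have hcf0 := H16B.cont_circle (taylor hd) hr hr1
  have hnorm : ∀ x : ℝ, ‖(r : ℂ) * H16B.e x‖ = r := H16B.norm_re (taylor hd) r hr
  have hcre : Continuous fun x : ℝ => (f (r * H16B.e x)).re := Complex.continuous_re.comp hcf0
  have hderiv : ∀ z : ℂ, ‖z‖ < 1 →
      ‖deriv h z‖ = ‖deriv f z‖ / A * Real.exp (-(f z).re / A) := by
    intro z hz
    have hfd : DifferentiableAt ℂ f z :=
      hd.differentiableAt (Metric.isOpen_ball.mem_nhds (by simpa using hz))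
    have h1 : HasDerivAt h (Complex.exp (-(f z) / A) * (-(deriv f z) / A)) z := by
      rw [hdef]
      exact ((hfd.hasDerivAt.neg).div_const (A : ℂ)).cexp
    rw [h1.deriv, norm_mul, Complex.norm_exp, norm_div, norm_neg, Complex.norm_real,
      Real.norm_of_nonneg hA.le]
    have h2 : (-(f z) / (A : ℂ)).re = -(f z).re / A := by
      rw [Complex.div_ofReal_re, Complex.neg_re]
    rw [h2]
    ring
  have hR : 0 < 1 - r ^ 2 := by nlinarith
  calc ∑ n ∈ Finset.range N, ‖((n : ℂ) + 1) * coeff f (n + 1)‖ ^ 2 * r ^ (2 * n)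
      ≤ ∫ x in (0:ℝ)..1, ‖deriv f (r * H16B.e x)‖ ^ 2 :=
        sum_le_hasSum _ (fun n _ => by positivity) hpf
    _ ≤ ∫ x in (0:ℝ)..1, (Real.exp 1 ^ 2 * A ^ 2 * ‖deriv h (r * H16B.e x)‖ ^ 2 +
          K ^ 2 / (A * (1 - r ^ 2) ^ 2) * (f (r * H16B.e x)).re) := by
        apply intervalIntegral.integral_mono_on zero_le_one
        · exact (hcf.norm.pow 2).intervalIntegrable _ _
        · apply Continuous.intervalIntegrable
          exact (continuous_const.mul (hch.norm.pow 2)).add (continuous_const.mul hcre)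
        · intro x _
          have hz : ‖(r : ℂ) * H16B.e x‖ < 1 := by rw [hnorm]; exact hr1
          have hmem : (r : ℂ) * H16B.e x ∈ Metric.ball (0:ℂ) 1 := by simpa using hz
          have hKx := hK _ hmem
          rw [hnorm] at hKx
          exact ptwise hA (hpos _ hmem) hR hKx (norm_nonneg _) (hderiv _ hz)
    _ = Real.exp 1 ^ 2 * A ^ 2 * ∑' n : ℕ, ‖((n : ℂ) + 1) * coeff h (n + 1)‖ ^ 2 * r ^ (2 * n) +
        K ^ 2 / (A * (1 - r ^ 2) ^ 2) := by
        rw [intervalIntegral.integral_add, intervalIntegral.integral_const_mul,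
          intervalIntegral.integral_const_mul, int_re hd h0 hr hr1, hph.tsum_eq, mul_one]
        · exact (continuous_const.mul (hch.norm.pow 2)).intervalIntegrable _ _
        · exact (continuous_const.mul hcre).intervalIntegrable _ _

theorem pow_lower (N : ℕ) (hN : 1 ≤ N) :
    Real.exp (-1) ≤ (1 - 1 / ((N : ℝ) + 1)) ^ N := by
  have hN0 : (0:ℝ) < N := by exact_mod_cast hN
  have h1 : (1 + 1 / (N:ℝ)) ^ N ≤ Real.exp 1 := by
    have h2 : 1 + 1 / (N:ℝ) ≤ Real.exp (1 / N) := by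
      have := Real.add_one_le_exp (1 / (N:ℝ)); linarith
    calc (1 + 1 / (N:ℝ)) ^ N ≤ (Real.exp (1 / N)) ^ N := pow_le_pow_left₀ (by positivity) h2 N
      _ = Real.exp 1 := by
        rw [← Real.exp_nat_mul]; congr 1; field_simp
  have h3 : (1 - 1 / ((N : ℝ) + 1)) ^ N * (1 + 1 / (N:ℝ)) ^ N = 1 := by
    rw [← mul_pow]
    have : (1 - 1 / ((N : ℝ) + 1)) * (1 + 1 / (N:ℝ)) = 1 := by field_simp; ring
    rw [this, one_pow]
  have h4 : 0 < (1 - 1 / ((N : ℝ) + 1)) ^ N := by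
    apply pow_pos
    have : 1 / ((N:ℝ) + 1) < 1 := by
      rw [div_lt_one (by positivity)]; linarith
    linarith
  rw [Real.exp_neg, inv_le_iff_one_le_mul₀ (Real.exp_pos 1)]
  calc (1:ℝ) = (1 - 1 / ((N : ℝ) + 1)) ^ N * (1 + 1 / (N:ℝ)) ^ N := h3.symm
    _ ≤ (1 - 1 / ((N : ℝ) + 1)) ^ N * Real.exp 1 := mul_le_mul_of_nonneg_left h1 h4.le

theorem upper_aux {f : ℂ → ℂ} (hd : DifferentiableOn ℂ f (Metric.ball 0 1)) (h0 : f 0 = 1)
    (hpos : ∀ z ∈ Metric.ball (0:ℂ) 1, 0 < (f z).re) {K : ℝ}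
    (hK : ∀ z ∈ Metric.ball (0:ℂ) 1, (1 - ‖z‖^2) * ‖deriv f z‖ ≤ K)
    {A : ℝ} (hA : 0 < A) {N : ℕ} (hN : 1 ≤ N) :
    S f N ≤ 2 * Real.exp 1 * (Real.exp 1 ^ 2 * A ^ 2 * (2 / A) + K ^ 2 / A * Real.log (N + 1)) := by
  set h : ℂ → ℂ := fun z => Complex.exp (-(f z) / A) with hdef
  have hh : DifferentiableOn ℂ h (Metric.ball 0 1) := (hd.neg.div_const _).cexp
  have hb : ∀ z : ℂ, ‖z‖ < 1 → ‖h z‖ ≤ 1 := by
    intro z hz
    rw [hdef]
    simp only [Complex.norm_exp]
    have h2 : (-(f z) / (A : ℂ)).re = -(f z).re / A := by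
      rw [Complex.div_ofReal_re, Complex.neg_re]
    rw [h2]
    apply Real.exp_le_one_iff.2
    have := hpos z (by simpa using hz)
    exact div_nonpos_of_nonpos_of_nonneg (by linarith) hA.le
  have hc0 : ‖coeff h 0‖ ^ 2 = Real.exp (-(2 / A)) := by
    have : coeff h 0 = Complex.exp (-1 / A) := by
      simp [coeff, hdef, h0]
    rw [this, Complex.norm_exp]
    have h2 : ((-1 : ℂ) / (A : ℂ)).re = -1 / A := by
      rw [Complex.div_ofReal_re]; simp
    rw [h2, ← Real.exp_nat_mul]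
    congr 1
    push_cast
    ring
  have hsumh : ∀ M : ℕ, ∑ n ∈ Finset.range M, ‖coeff h (n + 1)‖ ^ 2 ≤ 2 / A := by
    intro M
    have h1 := bound_h hh hb (M + 1)
    rw [Finset.sum_range_succ', hc0] at h1
    have h2 := Real.add_one_le_exp (-(2 / A))
    linarith
  set ρ : ℝ := 1 - 1 / ((N : ℝ) + 1) with hρ
  have hN0 : (0:ℝ) < N := by exact_mod_cast hN
  have hρ1 : ρ < 1 := by
    have : 0 < 1 / ((N:ℝ) + 1) := by positivity
    rw [hρ]; linarith
  have hρ0 : 0 ≤ ρ := by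
    have : 1 / ((N:ℝ) + 1) ≤ 1 := by
      rw [div_le_one (by positivity)]; linarith
    rw [hρ]; linarith
  have key := integ (c := fun n => ‖((n : ℂ) + 1) * coeff f (n + 1)‖ ^ 2)
    (d := fun n => Real.exp 1 ^ 2 * A ^ 2 * ‖((n : ℂ) + 1) * coeff h (n + 1)‖ ^ 2)
    (fun n => by positivity) (fun n => by positivity) (N := N) (ρ := ρ) (Dc := K ^ 2 / A)
    (E := Real.exp 1 ^ 2 * A ^ 2 * (2 / A)) hρ0 hρ1 ?_ ?_ ?_
  · have hlog : Real.log (1 / (1 - ρ)) = Real.log (N + 1) := by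
      rw [hρ]; congr 1; field_simp; ring
    rw [hlog] at key
    have hS : S f N ≤ 2 * Real.exp 1 * ∑ n ∈ Finset.range N,
        ‖((n : ℂ) + 1) * coeff f (n + 1)‖ ^ 2 * ρ ^ (n + 1) / ((n + 1) * (n + 2)) := by
      have hS1 : S f N = ∑ n ∈ Finset.range N, ‖coeff f (n + 1)‖ ^ 2 := by
        unfold S
        rw [Finset.range_eq_Ico, Finset.sum_Ico_add' (fun n => ‖coeff f n‖ ^ 2) 0 N 1]
        rfl
      rw [hS1, Finset.mul_sum]
      refine Finset.sum_le_sum fun n hn => ?_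
      have hn' : n + 1 ≤ N := by
        have := Finset.mem_range.1 hn; omega
      have hpow : Real.exp (-1) ≤ ρ ^ (n + 1) :=
        (pow_lower N hN).trans (pow_le_pow_of_le_one hρ0 hρ1.le hn')
      have hn1 : ‖((n : ℂ) + 1)‖ = (n : ℝ) + 1 := by
        have : ((n : ℂ) + 1) = ((n + 1 : ℕ) : ℂ) := by push_cast; ring
        rw [this, Complex.norm_natCast]; push_cast; ring
      rw [norm_mul, hn1, mul_pow]
      have h5 : 1 ≤ 2 * Real.exp 1 * (((n:ℝ) + 1) ^ 2 * ρ ^ (n + 1) / ((n + 1) * (n + 2))) := by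
        have h6 : 1 ≤ Real.exp 1 * ρ ^ (n + 1) := by
          calc (1:ℝ) = Real.exp 1 * Real.exp (-1) := by rw [← Real.exp_add]; simp
            _ ≤ _ := mul_le_mul_of_nonneg_left hpow (Real.exp_pos 1).le
        have h7 : 1 ≤ 2 * (((n:ℝ) + 1) / (n + 2)) := by
          rw [← mul_div_assoc, le_div_iff₀ (by positivity)]
          have : (0:ℝ) ≤ n := Nat.cast_nonneg n
          linarith
        calc (1:ℝ) ≤ (Real.exp 1 * ρ ^ (n + 1)) * (2 * (((n:ℝ) + 1) / (n + 2))) :=
              one_le_mul_of_one_le_of_one_le h6 h7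
          _ = _ := by field_simp
      calc ‖coeff f (n + 1)‖ ^ 2 = ‖coeff f (n + 1)‖ ^ 2 * 1 := (mul_one _).symm
        _ ≤ ‖coeff f (n + 1)‖ ^ 2 *
            (2 * Real.exp 1 * (((n:ℝ) + 1) ^ 2 * ρ ^ (n + 1) / ((n + 1) * (n + 2)))) :=
              mul_le_mul_of_nonneg_left h5 (by positivity)
        _ = _ := by ring
    refine hS.trans (mul_le_mul_of_nonneg_left key (by positivity))
  · have hr0 : 0 ≤ Real.sqrt ρ := Real.sqrt_nonneg _
    have hr1 : Real.sqrt ρ < 1 := by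
      rw [Real.sqrt_lt' one_pos]; simpa using hρ1
    have hp := (H16B.parseval (taylor_deriv hh) hr0 hr1).summable.mul_left (Real.exp 1 ^ 2 * A ^ 2)
    refine hp.congr fun n => ?_
    rw [pow_mul, Real.sq_sqrt hρ0]; ring
  · intro s hs
    have hs1 : s < 1 := lt_of_le_of_lt hs.2 hρ1
    have hr0 : 0 ≤ Real.sqrt s := Real.sqrt_nonneg _
    have hr1 : Real.sqrt s < 1 := by
      rw [Real.sqrt_lt' one_pos]; simpa using hs1
    have hci := circle_ineq hd h0 hpos hK hA hdef hh hr0 hr1 N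
    simp only [pow_mul, Real.sq_sqrt hs.1] at hci
    have h8 : ∑' n : ℕ, Real.exp 1 ^ 2 * A ^ 2 * ‖((n : ℂ) + 1) * coeff h (n + 1)‖ ^ 2 * s ^ n =
        Real.exp 1 ^ 2 * A ^ 2 * ∑' n : ℕ, ‖((n : ℂ) + 1) * coeff h (n + 1)‖ ^ 2 * s ^ n := by
      rw [← tsum_mul_left]
      congr 1; ext n; ring
    rw [h8]
    have h9 : K ^ 2 / A / (1 - s) ^ 2 = K ^ 2 / (A * (1 - s) ^ 2) := by rw [div_div]
    rw [h9]
    exact hci
  · intro M
    have h10 := hsumh M
    refine le_trans ?_ (mul_le_mul_of_nonneg_left h10 (by positivity :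
      (0:ℝ) ≤ Real.exp 1 ^ 2 * A ^ 2))
    rw [Finset.mul_sum]
    refine Finset.sum_le_sum fun n _ => ?_
    have hn1 : ‖((n : ℂ) + 1)‖ = (n : ℝ) + 1 := by
      have : ((n : ℂ) + 1) = ((n + 1 : ℕ) : ℂ) := by push_cast; ring
      rw [this, Complex.norm_natCast]; push_cast; ring
    rw [norm_mul, hn1, mul_pow]
    have h11 : ((n:ℝ) + 1) ^ 2 / ((n + 1) * (n + 2)) ≤ 1 := by
      rw [div_le_one (by positivity)]
      have : (0:ℝ) ≤ n := Nat.cast_nonneg n
      nlinarith
    calc Real.exp 1 ^ 2 * A ^ 2 * (((n:ℝ) + 1) ^ 2 * ‖coeff h (n + 1)‖ ^ 2) / ((n + 1) * (n + 2))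
        = Real.exp 1 ^ 2 * A ^ 2 * ‖coeff h (n + 1)‖ ^ 2 *
          (((n:ℝ) + 1) ^ 2 / ((n + 1) * (n + 2))) := by ring
      _ ≤ Real.exp 1 ^ 2 * A ^ 2 * ‖coeff h (n + 1)‖ ^ 2 * 1 :=
          mul_le_mul_of_nonneg_left h11 (by positivity)
      _ = _ := by ring

theorem upper (f : ℂ → ℂ) (hf : InC f) :
    ∃ C : ℝ, ∀ N : ℕ, 2 ≤ N → S f N ≤ C * Real.sqrt (Real.log N) := by
  obtain ⟨hd, h0, hpos, K, hK⟩ := hf
  refine ⟨2 * Real.exp 1 * (2 * Real.exp 1 ^ 2 + K ^ 2) * Real.sqrt 2, fun N hN => ?_⟩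
  have hN2 : (2:ℝ) ≤ N := by exact_mod_cast hN
  have hlogpos : 0 < Real.log (N + 1) := Real.log_pos (by linarith)
  have hA : 0 < Real.sqrt (Real.log (N + 1)) := Real.sqrt_pos.2 hlogpos
  have h1 := upper_aux hd h0 hpos hK hA (N := N) (by omega)
  set A := Real.sqrt (Real.log (N + 1)) with hAdef
  have hA2 : Real.log (N + 1) = A ^ 2 := (Real.sq_sqrt hlogpos.le).symm
  rw [hA2] at h1
  have h2 : A ≤ Real.sqrt 2 * Real.sqrt (Real.log N) := by
    rw [hAdef, ← Real.sqrt_mul (by norm_num)]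
    apply Real.sqrt_le_sqrt
    have h3 : Real.log ((N:ℝ) ^ 2) = 2 * Real.log N := by rw [Real.log_pow]; push_cast; ring
    rw [← h3]
    apply Real.log_le_log (by linarith)
    nlinarith
  calc S f N ≤ 2 * Real.exp 1 * (Real.exp 1 ^ 2 * A ^ 2 * (2 / A) + K ^ 2 / A * A ^ 2) := h1
    _ = 2 * Real.exp 1 * (2 * Real.exp 1 ^ 2 + K ^ 2) * A := by field_simp
    _ ≤ 2 * Real.exp 1 * (2 * Real.exp 1 ^ 2 + K ^ 2) * (Real.sqrt 2 * Real.sqrt (Real.log N)) :=
        mul_le_mul_of_nonneg_left h2 (by positivity)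
    _ = _ := by ring

end H72Up

end part7

/-- The optimal rate is `sqrt (log N)`: every `f` in C has `S_N(f) ≤ K sqrt (log N)` for `N ≥ 2`,
with `K` depending on `f`, and some `f` in C has `S_N(f) ≥ c sqrt (log N)` for all large `N`, with
`c > 0`. -/
theorem result :
    (∀ f : ℂ → ℂ, InC f → ∃ K : ℝ, ∀ N : ℕ, 2 ≤ N → S f N ≤ K * Real.sqrt (Real.log N)) ∧
    (∃ f : ℂ → ℂ, InC f ∧ ∃ c : ℝ, 0 < c ∧
      ∀ᶠ N : ℕ in Filter.atTop, c * Real.sqrt (Real.log N) ≤ S f N) :=
  ⟨H72Up.upper, H16B.exists_sharp⟩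

end Pool.Agent.Results.MP_034cab_an.SqrtLogRate
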